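import Pool.Agent.Lib.MP_c28bf6_an.Triple

/-!
# At most six bodies
-/

open Finset

namespace Pool.Agent.Lib.MP_c28bf6_an

variable {E : Type*} [NormedAddCommGroup E] [InnerProductSpace ℝ E]

namespace Core

variable {n : ℕ} [NeZero n] {μ : ZMod n → ℝ} {X : ZMod n → ℝ → E} {τ : ℝ}

omit [NeZero n] in
lemma card_support_le [Fintype (ZMod n)] [DecidableEq (ZMod n)] {w : ZMod n → ℝ}
    (Z : Finset (ZMod n)) (hZ : ∀ j ∈ Z, w j = 0) :
    (Finset.univ.filter (fun j => w j ≠ 0)).card + Z.card ≤ Fintype.card (ZMod n) := by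
  classical
  rw [← Finset.card_union_of_disjoint]
  · exact Finset.card_le_univ _
  · rw [Finset.disjoint_left]
    intro j hj hj'
    rw [Finset.mem_filter] at hj
    exact hj.2 (hZ j hj')

/-- a zero entry and few bodies -/
lemma zeros_lt (h : Core n μ X τ) {w : ZMod n → ℝ} (hw : w ∈ W n μ) (hne : w ≠ 0)
    (Z : Finset (ZMod n)) (hZ : ∀ j ∈ Z, w j = 0) : Z.card + 5 ≤ n := by
  classical
  have h1 := h.five_le_card_support hw hne
  have h2 := card_support_le Z hZ
  rw [ZMod.card] at h2
  omega

lemma le_six_aux5 {μ : ZMod 5 → ℝ} {X : ZMod 5 → ℝ → E} (h : Core 5 μ X τ) {w : ZMod 5 → ℝ}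
    (hw : w ∈ W 5 μ) (hne : w ≠ 0) : False := by
  have h0 : w 0 ≠ 0 := by
    intro h0
    have := h.zeros_lt hw hne {0} (by simpa using h0)
    simp at this
  have hw1 := W_shift hw 1
  have hv : (w 1 • w - w 0 • fun j => w (j + 1)) ∈ W 5 μ :=
    Submodule.sub_mem _ (Submodule.smul_mem _ _ hw) (Submodule.smul_mem _ _ hw1)
  have hv0 : (w 1 • w - w 0 • fun j => w (j + 1)) 0 = 0 := by
    simp only [Pi.sub_apply, Pi.smul_apply, smul_eq_mul, zero_add]
    ring
  have hvz : (w 1 • w - w 0 • fun j => w (j + 1)) = 0 := by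
    by_contra hcon
    have := h.zeros_lt hv hcon {0} (by simpa using hv0)
    simp at this
  have e : ∀ j, w 1 * w j = w 0 * w (j + 1) := by
    intro j
    have := congrFun hvz j
    simp only [Pi.sub_apply, Pi.smul_apply, smul_eq_mul, Pi.zero_apply] at this
    linarith
  have e1 := e 1
  have e2 := e 2
  have e3 := e 3
  have e4 := e 4
  have a1 : (1 : ZMod 5) + 1 = 2 := by decide
  have a2 : (2 : ZMod 5) + 1 = 3 := by decide
  have a3 : (3 : ZMod 5) + 1 = 4 := by decide
  have a4 : (4 : ZMod 5) + 1 = 0 := by decide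
  rw [a1] at e1
  rw [a2] at e2
  rw [a3] at e3
  rw [a4] at e4
  obtain ⟨c, hc⟩ : ∃ c, c = w 1 / w 0 := ⟨_, rfl⟩
  have g1 : w 1 = c * w 0 := by rw [hc]; field_simp
  have g2 : w 2 = c ^ 2 * w 0 := by
    have : w 0 * w 2 = w 0 * (c ^ 2 * w 0) := by rw [← e1, g1]; ring
    exact mul_left_cancel₀ h0 this
  have g3 : w 3 = c ^ 3 * w 0 := by
    have : w 0 * w 3 = w 0 * (c ^ 3 * w 0) := by rw [← e2, g1, g2]; ring
    exact mul_left_cancel₀ h0 this
  have g4 : w 4 = c ^ 4 * w 0 := by
    have : w 0 * w 4 = w 0 * (c ^ 4 * w 0) := by rw [← e3, g1, g3]; ring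
    exact mul_left_cancel₀ h0 this
  have g5 : c ^ 5 = 1 := by
    rw [g1, g4] at e4
    have : w 0 * w 0 * c ^ 5 = w 0 * w 0 * 1 := by
      linear_combination e4
    exact mul_left_cancel₀ (mul_ne_zero h0 h0) this
  have hc1 : c = 1 := by
    have hodd : Odd 5 := by decide
    exact hodd.strictMono_pow.injective (by simpa using g5)
  have hs := sum_W hw
  have hs' : w 0 + w 1 + w 2 + w 3 + w 4 = 0 := by
    rw [← hs]
    exact (Fin.sum_univ_five (fun j : Fin 5 => w j)).symm
  rw [g1, g2, g3, g4, hc1] at hs'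
  apply h0
  linarith

/-- If `w` is `±`-periodic under the half-turn, a suitable combination has two zeros. -/
lemma le_six_aux6 {μ : ZMod 6 → ℝ} {X : ZMod 6 → ℝ → E} (h : Core 6 μ X τ) {w : ZMod 6 → ℝ}
    (hw : w ∈ W 6 μ) (hne : w ≠ 0) : False := by
  have a11 : (1 : ZMod 6) + 1 = 2 := by decide
  have hs := sum_W hw
  have hs' : w 0 + w 1 + w 2 + w 3 + w 4 + w 5 = 0 := by
    rw [← hs]
    exact (Fin.sum_univ_six (fun j : Fin 6 => w j)).symm
  have hw1 := W_shift hw 1
  have hw2 := W_shift hw 2
  have hw4 := W_shift hw 4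
  -- two zeros
  have two : ∀ β : ZMod 6 → ℝ, β ∈ W 6 μ → ∀ ε : ℝ, (∀ j, β (j + 3) = ε * β j) →
      (β 1 ^ 2 - β 0 * β 2 ≠ 0) → False := by
    intro β hβ ε hper hpos
    have hβ1 := W_shift hβ 1
    have hv : (β 1 • β - β 0 • fun j => β (j + 1)) ∈ W 6 μ :=
      Submodule.sub_mem _ (Submodule.smul_mem _ _ hβ) (Submodule.smul_mem _ _ hβ1)
    have hvne : (β 1 • β - β 0 • fun j => β (j + 1)) ≠ 0 := by
      intro h0
      have := congrFun h0 1
      simp only [Pi.sub_apply, Pi.smul_apply, smul_eq_mul, Pi.zero_apply, a11] at this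
      apply hpos
      linarith
    have h3 : β 3 = ε * β 0 := by
      have := hper 0
      rwa [zero_add] at this
    have h4 : β 4 = ε * β 1 := by
      have := hper 1
      rwa [show (1 : ZMod 6) + 3 = 4 by decide] at this
    have := h.zeros_lt hv hvne {0, 3} (by
      intro j hj
      simp only [Finset.mem_insert, Finset.mem_singleton] at hj
      rcases hj with rfl | rfl
      · simp only [Pi.sub_apply, Pi.smul_apply, smul_eq_mul, zero_add]
        ring
      · simp only [Pi.sub_apply, Pi.smul_apply, smul_eq_mul,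
          show (3 : ZMod 6) + 1 = 4 by decide, h3, h4]
        ring)
    have hcard : ({0, 3} : Finset (ZMod 6)).card = 2 := by decide
    rw [hcard] at this
    norm_num at this
  by_cases hα : w 0 + w 2 + w 4 = 0
  · have hα' : w 1 + w 3 + w 5 = 0 := by linarith
    by_cases hβ : (∀ j, w j + w (j + 1) + w (j + 2) = 0)
    · -- 3-periodic
      have b0 := hβ 0
      have b1 := hβ 1
      rw [zero_add, zero_add] at b0
      rw [a11, show (1 : ZMod 6) + 2 = 3 by decide] at b1
      apply two w hw 1
      · intro j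
        have e1 := hβ j
        have e2 := hβ (j + 1)
        rw [show j + 1 + 1 = j + 2 by ring, show j + 1 + 2 = j + 3 by ring] at e2
        linarith
      · intro h0
        have h2 : w 2 = -w 0 - w 1 := by linarith
        rw [h2] at h0
        have h00 : w 0 = 0 := by nlinarith [sq_nonneg (w 0), sq_nonneg (w 0 + 2 * w 1)]
        have h11 : w 1 = 0 := by rw [h00] at h0; nlinarith
        apply hne
        have h22 : w 2 = 0 := by rw [h2, h00, h11]; ring
        have p3 : w 3 = 0 := by rw [h11, h22] at b1; linarith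
        have b2 := hβ 2
        rw [show (2 : ZMod 6) + 1 = 3 by decide, show (2 : ZMod 6) + 2 = 4 by decide] at b2
        have p4 : w 4 = 0 := by rw [h22, p3] at b2; linarith
        have p5 : w 5 = 0 := by rw [h11, p3] at hα'; linarith
        funext j
        fin_cases j
        · exact h00
        · exact h11
        · exact h22
        · exact p3
        · exact p4
        · exact p5
    · -- β = w + w(.+1) + w(.+2)
      push Not at hβ
      obtain ⟨j0, hj0⟩ := hβ
      have hα2 : ∀ j, w j + w (j + 2) + w (j + 4) = 0 := by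
        intro j
        fin_cases j
        · exact hα
        · exact hα'
        · have : w 2 + w 4 + w 0 = 0 := by linarith
          exact this
        · have : w 3 + w 5 + w 1 = 0 := by linarith
          exact this
        · have : w 4 + w 0 + w 2 = 0 := by linarith
          exact this
        · have : w 5 + w 1 + w 3 = 0 := by linarith
          exact this
      set β : ZMod 6 → ℝ := w + (fun j => w (j + 1)) + (fun j => w (j + 2)) with hβdef
      have hβW : β ∈ W 6 μ := Submodule.add_mem _ (Submodule.add_mem _ hw hw1) hw2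
      have hβe : ∀ j, β j = w j + w (j + 1) + w (j + 2) := fun j => rfl
      have rel : ∀ j, β (j + 2) = β (j + 1) - β j := by
        intro j
        rw [hβe, hβe, hβe]
        rw [show j + 2 + 1 = j + 3 by ring, show j + 2 + 2 = j + 4 by ring,
          show j + 1 + 1 = j + 2 by ring, show j + 1 + 2 = j + 3 by ring]
        linarith [hα2 j]
      apply two β hβW (-1)
      · intro j
        have r1 := rel j
        have r2 := rel (j + 1)
        rw [show j + 1 + 2 = j + 3 by ring, show j + 1 + 1 = j + 2 by ring] at r2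
        linarith
      · intro h0
        have r0 := rel 0
        rw [zero_add, zero_add] at r0
        rw [r0] at h0
        have h00 : β 0 = 0 := by nlinarith [sq_nonneg (β 0), sq_nonneg (β 0 - 2 * β 1)]
        have h11 : β 1 = 0 := by rw [h00] at h0; nlinarith
        have r1 := rel 1
        have r2 := rel 2
        have r3 := rel 3
        rw [show (1 : ZMod 6) + 2 = 3 by decide, a11] at r1
        rw [show (2 : ZMod 6) + 2 = 4 by decide, show (2 : ZMod 6) + 1 = 3 by decide] at r2
        rw [show (3 : ZMod 6) + 2 = 5 by decide, show (3 : ZMod 6) + 1 = 4 by decide] at r3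
        have h22 : β 2 = 0 := by rw [r0, h00, h11]; ring
        have h33 : β 3 = 0 := by rw [r1, h22, h11]; ring
        have h44 : β 4 = 0 := by rw [r2, h33, h22]; ring
        have h55 : β 5 = 0 := by rw [r3, h44, h33]; ring
        apply hj0
        rw [← hβe]
        fin_cases j0
        · exact h00
        · exact h11
        · exact h22
        · exact h33
        · exact h44
        · exact h55
  · -- alternating case
    obtain ⟨a, ha⟩ : ∃ a, a = w 0 + w 2 + w 4 := ⟨_, rfl⟩
    rw [← ha] at hα
    have ha' : w 1 + w 3 + w 5 = -a := by linarith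
    set α : ZMod 6 → ℝ := w + (fun j => w (j + 2)) + (fun j => w (j + 4)) with hαdef
    have hαW : α ∈ W 6 μ := Submodule.add_mem _ (Submodule.add_mem _ hw hw2) hw4
    have hfin := Submodule.smul_mem _ a⁻¹ hαW
    apply h.no_triple (a := 0) (b := 2) (c := 4) (s := 1) (by decide) (by decide) (by decide)
      (by decide) (by decide) (by decide) (by decide) (by decide) (by decide) (by decide)
    convert hfin using 1
    funext j
    have v0 : α 0 = a := by rw [ha]; rfl
    have v1 : α 1 = -a := by rw [← ha']; rfl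
    have v2 : α 2 = a := by
      have : α 2 = w 2 + w 4 + w 0 := rfl
      rw [this, ha]; ring
    have v3 : α 3 = -a := by
      have : α 3 = w 3 + w 5 + w 1 := rfl
      rw [this, ← ha']; ring
    have v4 : α 4 = a := by
      have : α 4 = w 4 + w 0 + w 2 := rfl
      rw [this, ha]; ring
    have v5 : α 5 = -a := by
      have : α 5 = w 5 + w 1 + w 3 := rfl
      rw [this, ← ha']; ring
    rw [Pi.smul_apply, smul_eq_mul]
    fin_cases j
    · have : (1 : ℝ) + 0 + 0 - 0 - 0 - 0 = a⁻¹ * α 0 := by rw [v0]; field_simp; norm_num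
      exact this
    · have : (0 : ℝ) + 0 + 0 - 1 - 0 - 0 = a⁻¹ * α 1 := by rw [v1]; field_simp; norm_num
      exact this
    · have : (0 : ℝ) + 1 + 0 - 0 - 0 - 0 = a⁻¹ * α 2 := by rw [v2]; field_simp; norm_num
      exact this
    · have : (0 : ℝ) + 0 + 0 - 0 - 1 - 0 = a⁻¹ * α 3 := by rw [v3]; field_simp; norm_num
      exact this
    · have : (0 : ℝ) + 0 + 1 - 0 - 0 - 0 = a⁻¹ * α 4 := by rw [v4]; field_simp; norm_num
      exact this
    · have : (0 : ℝ) + 0 + 0 - 0 - 0 - 1 = a⁻¹ * α 5 := by rw [v5]; field_simp; norm_num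
      exact this

/-- **At most six bodies: equal masses.** -/
theorem eq_of_le_six (h : Core n μ X τ) (hn : n ≤ 6) (i j : ZMod n) : μ i = μ j := by
  classical
  by_contra hcon
  -- a nonzero element of `W`
  have hw : (fun k => μ (k + (j - i)) - μ k) ∈ W n μ := diff_mem (j - i)
  have hne : (fun k => μ (k + (j - i)) - μ k) ≠ 0 := by
    intro h0
    have := congrFun h0 i
    simp only [Pi.zero_apply, add_sub_cancel] at this
    exact hcon (sub_eq_zero.1 this).symm
  have h5 := h.zeros_lt hw hne ∅ (by simp)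
  rw [Finset.card_empty, zero_add] at h5
  have hcases : n = 5 ∨ n = 6 := by omega
  rcases hcases with rfl | rfl
  · exact le_six_aux5 h hw hne
  · exact le_six_aux6 h hw hne

end Core

end Pool.Agent.Lib.MP_c28bf6_an
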