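import Pool.Agent.Lib.MP_c28bf6_an.Defs
import Pool.Agent.Lib.MP_c28bf6_an.LeSix

/-!
# From `IsChoreography` to `Core`
-/

open Finset

namespace Pool.Agent.Lib.MP_c28bf6_an

variable {E : Type*} [NormedAddCommGroup E] [InnerProductSpace ℝ E]

lemma IsChoreography.per_nat {n : ℕ} {m : Fin n → ℝ} {x : ℝ → E} {T : ℝ}
    (h : IsChoreography n m x T) (t : ℝ) (k : ℕ) : x (t + k * T) = x t := by
  induction k with
  | zero => simp
  | succ k ih =>
    have : t + ((k + 1 : ℕ) : ℝ) * T = (t + k * T) + T := by push_cast; ring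
    rw [this, h.periodic, ih]

/-- the bodies, indexed by `ZMod (k+1)` -/
noncomputable def bodyZ (k : ℕ) (x : ℝ → E) (T : ℝ) (j : ZMod (k + 1)) (t : ℝ) : E :=
  x (t + ((j.val : ℕ) : ℝ) * T / ((k + 1 : ℕ) : ℝ))

theorem IsChoreography.core {k : ℕ} {m : Fin (k + 1) → ℝ} {x : ℝ → E} {T : ℝ}
    (h : IsChoreography (k + 1) m x T) :
    Core (k + 1) (fun j : ZMod (k + 1) => m j) (bodyZ k x T) (T / ((k + 1 : ℕ) : ℝ)) := by
  have hn : (0 : ℝ) < ((k + 1 : ℕ) : ℝ) := by positivity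
  have hdx : Differentiable ℝ x := h.contDiff.differentiable (by norm_num)
  have hddx : Differentiable ℝ (deriv x) := by
    have h1 : ContDiff ℝ 1 (deriv x) := by
      have h2 : ContDiff ℝ (1 + 1) x := by
        have := h.contDiff
        norm_num
        exact this
      exact (contDiff_succ_iff_deriv.1 h2).2.2
    exact h1.differentiable (by norm_num)
  have hderiv : ∀ j : ZMod (k + 1), deriv (bodyZ k x T j) =
      fun t => deriv x (t + ((j.val : ℕ) : ℝ) * T / ((k + 1 : ℕ) : ℝ)) := by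
    intro j
    funext t
    exact deriv_comp_add_const x _ t
  refine ⟨div_pos h.period_pos hn, ?_, ?_, ?_, ?_, ?_⟩
  · intro j s t
    simp only [bodyZ]
    have h1 : (j + s).val = (j.val + s.val) % (k + 1) := ZMod.val_add j s
    have h2 : ((j.val + s.val) % (k + 1)) + (k + 1) * ((j.val + s.val) / (k + 1)) =
      j.val + s.val := Nat.mod_add_div _ _
    rw [h1]
    have h3 : ((j.val : ℕ) : ℝ) + ((s.val : ℕ) : ℝ) = (((j.val + s.val) % (k + 1) : ℕ) : ℝ) +
        ((k + 1 : ℕ) : ℝ) * (((j.val + s.val) / (k + 1) : ℕ) : ℝ) := by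
      rw [← Nat.cast_mul, ← Nat.cast_add, ← Nat.cast_add, h2]
    have h4 : t + ((s.val : ℕ) : ℝ) * (T / ((k + 1 : ℕ) : ℝ)) +
        ((j.val : ℕ) : ℝ) * T / ((k + 1 : ℕ) : ℝ) =
        (t + (((j.val + s.val) % (k + 1) : ℕ) : ℝ) * T / ((k + 1 : ℕ) : ℝ)) +
          (((j.val + s.val) / (k + 1) : ℕ) : ℝ) * T := by
      have h5 : t + ((s.val : ℕ) : ℝ) * (T / ((k + 1 : ℕ) : ℝ)) +
        ((j.val : ℕ) : ℝ) * T / ((k + 1 : ℕ) : ℝ) =
        t + (((j.val : ℕ) : ℝ) + ((s.val : ℕ) : ℝ)) * T / ((k + 1 : ℕ) : ℝ) := by ring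
      rw [h5, h3]
      field_simp
      ring
    rw [h4, h.per_nat]
  · intro j t
    simp only [bodyZ]
    have h4 : t + ((k + 1 : ℕ) : ℝ) * (T / ((k + 1 : ℕ) : ℝ)) +
        ((j.val : ℕ) : ℝ) * T / ((k + 1 : ℕ) : ℝ) =
        (t + ((j.val : ℕ) : ℝ) * T / ((k + 1 : ℕ) : ℝ)) + T := by
      rw [mul_div_cancel₀ _ hn.ne']
      ring
    rw [h4, h.periodic]
  · intro t i j hij
    exact h.no_collision t i j hij
  · intro j t
    have h1 : Differentiable ℝ (fun t => x (t + ((j.val : ℕ) : ℝ) * T / ((k + 1 : ℕ) : ℝ))) :=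
      hdx.comp (differentiable_id.add_const _)
    exact h1 t
  · intro j t
    rw [hderiv j]
    have h1 := (hddx (t + ((j.val : ℕ) : ℝ) * T / ((k + 1 : ℕ) : ℝ))).hasDerivAt
    have h2 := HasDerivAt.comp_add_const t (((j.val : ℕ) : ℝ) * T / ((k + 1 : ℕ) : ℝ)) h1
    have h3 := h.newton t j
    have h4 : deriv (deriv x) (t + ((j.val : ℕ) : ℝ) * T / ((k + 1 : ℕ) : ℝ)) =
        ∑ i : ZMod (k + 1), (m i) • force (bodyZ k x T i t - bodyZ k x T j t) := by
      refine h3.trans ?_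
      apply Finset.sum_erase
      rw [sub_self, force_zero, smul_zero]
    rw [← h4]
    exact h2

/-- **At most six bodies.** -/
theorem IsChoreography.eq_of_le_six {n : ℕ} {m : Fin n → ℝ} {x : ℝ → E} {T : ℝ}
    (h : IsChoreography n m x T) (hn : n ≤ 6) (i j : Fin n) : m i = m j := by
  obtain _ | k := n
  · exact i.elim0
  · exact h.core.eq_of_le_six hn i j

end Pool.Agent.Lib.MP_c28bf6_an
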