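import Pool.Agent.Lib.MP_c28bf6_an.Rational3

/-!
# General number of bodies: from `Core` to `IsChoreography`
-/

open Finset

namespace Pool.Agent.Lib.MP_c28bf6_an

variable {E : Type*} [NormedAddCommGroup E] [InnerProductSpace ℝ E]

/-- the masses are commensurable -/
def Commensurable {n : ℕ} (m : Fin n → ℝ) : Prop := ∃ (c : ℝ) (r : Fin n → ℚ), ∀ j, m j = c * r j

lemma cyc_eq {k : ℕ} (s : ℕ) (j : ZMod (k + 1)) :
    (cyc s (j : Fin (k + 1)) : Fin (k + 1)) = (j + (s : ZMod (k + 1)) : ZMod (k + 1)) := by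
  apply Fin.ext
  have h1 : (j + (s : ZMod (k + 1)) : ZMod (k + 1)).val = (j.val + (s : ZMod (k + 1)).val) % (k + 1) :=
    ZMod.val_add j _
  have h2 : (s : ZMod (k + 1)).val = s % (k + 1) := ZMod.val_natCast _ _
  rw [h2, Nat.add_mod_mod] at h1
  exact h1.symm

lemma massSpan_le {k : ℕ} (m : Fin (k + 1) → ℝ) {w : Fin (k + 1) → ℝ} (hw : w ∈ massSpan m) :
    (show ZMod (k + 1) → ℝ from w) ∈ Core.W (k + 1) (fun j : ZMod (k + 1) => m j) := by
  induction hw using Submodule.span_induction with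
  | mem w hw =>
    obtain ⟨s, rfl⟩ := hw
    have h := Core.diff_mem (n := k + 1) (μ := fun j : ZMod (k + 1) => m j) (s : ZMod (k + 1))
    have h2 : (show ZMod (k + 1) → ℝ from fun j : Fin (k + 1) => m (cyc s j) - m j) =
        fun j : ZMod (k + 1) => (fun j : ZMod (k + 1) => m j) (j + (s : ZMod (k + 1))) -
          (fun j : ZMod (k + 1) => m j) j := by
      funext j
      show m (cyc s j) - m j = m (j + (s : ZMod (k + 1)) : ZMod (k + 1)) - m j
      rw [← cyc_eq]
    rw [h2]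
    exact h
  | zero => exact Submodule.zero_mem _
  | add x y _ _ hx hy => exact Submodule.add_mem _ hx hy
  | smul a x _ hx => exact Submodule.smul_mem _ a hx

theorem IsChoreography.five_le {n : ℕ} {m : Fin n → ℝ} {x : ℝ → E} {T : ℝ}
    (h : IsChoreography n m x T) {w : Fin n → ℝ} (hw : w ∈ massSpan m) (hw0 : w ≠ 0) :
    5 ≤ (Finset.univ.filter (fun j => w j ≠ 0)).card := by
  obtain _ | k := n
  · exact absurd (funext fun i => i.elim0) hw0
  · exact h.core.five_le_card_support (massSpan_le m hw) hw0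

theorem IsChoreography.eq_of_prime {n : ℕ} {m : Fin n → ℝ} {x : ℝ → E} {T : ℝ}
    (h : IsChoreography n m x T) (hm : Commensurable m) (hn : n.Prime) (i j : Fin n) :
    m i = m j := by
  obtain _ | k := n
  · exact i.elim0
  · obtain ⟨c, r, hr⟩ := hm
    exact h.core.eq_of_prime (r := r) hr hn i j

theorem IsChoreography.eq_of_nine {m : Fin 9 → ℝ} {x : ℝ → E} {T : ℝ}
    (h : IsChoreography 9 m x T) (hm : Commensurable m) (i j : Fin 9) :
    m i = m j := by
  obtain ⟨c, r, hr⟩ := hm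
  have hc : Core 9 (fun j : ZMod 9 => m j) (bodyZ 8 x T) (T / ((8 + 1 : ℕ) : ℝ)) := h.core
  exact Core.eq_of_nine hc (r := r) hr i j

lemma cyc_apply {k : ℕ} (m : Fin (k + 1) → ℝ) (s : ℕ) (j : Fin (k + 1)) :
    m (cyc s j) = (fun i : ZMod (k + 1) => m i) ((show ZMod (k + 1) from j) + (s : ZMod (k + 1))) :=
  congrArg m (cyc_eq s j)

lemma cyc_cyc_apply {k : ℕ} (m : Fin (k + 1) → ℝ) (s s' : ℕ) (j : Fin (k + 1)) :
    m (cyc s' (cyc s j)) = (fun i : ZMod (k + 1) => m i)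
      ((show ZMod (k + 1) from j) + (s : ZMod (k + 1)) + (s' : ZMod (k + 1))) := by
  refine (cyc_apply m s' (cyc s j)).trans ?_
  have h := cyc_eq s j
  exact congrArg (fun i : ZMod (k + 1) => (fun i : ZMod (k + 1) => m i) (i + (s' : ZMod (k + 1)))) h

theorem IsChoreography.period_of_mul {n : ℕ} {m : Fin n → ℝ} {x : ℝ → E} {T : ℝ}
    (h : IsChoreography n m x T) (hm : Commensurable m) {g p : ℕ} (hg : g = 2 ∨ g = 3)
    (hp : p.Prime) (hpg : p ≠ g) (hn : n = g * p) (j : Fin n) : m (cyc g j) = m j := by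
  obtain _ | k := n
  · exact j.elim0
  · obtain ⟨c, r, hr⟩ := hm
    exact (cyc_apply m g j).trans (h.core.period_of_mul (r := r) hr hg hp hpg hn j)

theorem IsChoreography.class_sum {n : ℕ} {m : Fin n → ℝ} {x : ℝ → E} {T : ℝ}
    (h : IsChoreography n m x T) (hm : Commensurable m) {p k g : ℕ}
    (hp : p.Prime) (hg1 : 1 ≤ g) (hg3 : g ≤ 3) (hn : n = g * p ^ (k + 1)) (j : Fin n) :
    ∑ i ∈ Finset.range g, m (cyc (p ^ k) (cyc (i * p ^ (k + 1)) j)) =
      ∑ i ∈ Finset.range g, m (cyc (i * p ^ (k + 1)) j) := by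
  obtain _ | l := n
  · exact j.elim0
  · obtain ⟨c, r, hr⟩ := hm
    refine (Finset.sum_congr rfl (fun i _ => cyc_cyc_apply m (i * p ^ (k + 1)) (p ^ k) j)).trans
      ((h.core.class_sum (r := r) hr hp hg1 hg3 hn j).trans
        (Finset.sum_congr rfl (fun i _ => (cyc_apply m (i * p ^ (k + 1)) j).symm)))

theorem IsChoreography.mixed_difference {n : ℕ} {m : Fin n → ℝ} {x : ℝ → E} {T : ℝ}
    (h : IsChoreography n m x T) (hm : Commensurable m) {p q u v : ℕ}
    (hp : p.Prime) (hq : q.Prime) (hpq : p ≠ q) (hn : n = p ^ (u + 1) * q ^ (v + 1)) (j : Fin n) :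
    m (cyc (p ^ (u + 1) * q ^ v) (cyc (p ^ u * q ^ (v + 1)) j)) + m j =
      m (cyc (p ^ u * q ^ (v + 1)) j) + m (cyc (p ^ (u + 1) * q ^ v) j) := by
  obtain _ | l := n
  · exact j.elim0
  · obtain ⟨c, r, hr⟩ := hm
    have := h.core.mixed_difference (r := r) hr hp hq hpq hn j
    have e1 := cyc_cyc_apply m (p ^ u * q ^ (v + 1)) (p ^ (u + 1) * q ^ v) j
    have e2 := cyc_apply m (p ^ u * q ^ (v + 1)) j
    have e3 := cyc_apply m (p ^ (u + 1) * q ^ v) j
    exact (congrArg (· + m j) e1).trans (this.trans (congrArg₂ (· + ·) e2.symm e3.symm))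

end Pool.Agent.Lib.MP_c28bf6_an
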