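import Pool.Agent.Lib.MP_c28bf6_an.Static

/-!
# Choreographies: definitions
-/

open Finset

namespace Pool.Agent.Lib.MP_c28bf6_an

/-- Position at time `t` of the `i`-th body (`i = 0, …, n-1`): all bodies move on the curve `x`,
with time shifts that are multiples of `T/n`. -/
noncomputable def body {E : Type*} (n : ℕ) (x : ℝ → E) (T : ℝ) (i : Fin n) (t : ℝ) : E :=
  x (t + ((i : ℕ) : ℝ) * T / (n : ℝ))

/-- The curve `x`, of period `T`, is a collision-free choreography of the `n`-body problem in `E`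
with positive masses `m`. -/
structure IsChoreography {E : Type*} [NormedAddCommGroup E] [InnerProductSpace ℝ E]
    (n : ℕ) (m : Fin n → ℝ) (x : ℝ → E) (T : ℝ) : Prop where
  period_pos : 0 < T
  mass_pos : ∀ i, 0 < m i
  contDiff : ContDiff ℝ 2 x
  periodic : ∀ t, x (t + T) = x t
  no_collision : ∀ (t : ℝ) (i j : Fin n), i ≠ j → body n x T i t ≠ body n x T j t
  newton : ∀ (t : ℝ) (i : Fin n), deriv (deriv x) (t + ((i : ℕ) : ℝ) * T / (n : ℝ)) =
    ∑ j ∈ Finset.univ.erase i, m j • force (body n x T j t - body n x T i t)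

/-- `j + s` modulo `n` -/
def cyc {n : ℕ} (s : ℕ) (j : Fin n) : Fin n := ⟨((j : ℕ) + s) % n, Nat.mod_lt _ (Fin.pos j)⟩

/-- The linear span of the vectors `(m_{j+s} - m_j)_j`, `s = 0, 1, 2, …` (indices mod `n`). -/
def massSpan {n : ℕ} (m : Fin n → ℝ) : Submodule ℝ (Fin n → ℝ) :=
  Submodule.span ℝ (Set.range (fun s : ℕ => fun j : Fin n => m (cyc s j) - m j))

end Pool.Agent.Lib.MP_c28bf6_an
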