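import Pool.Agent.Lib.MP_c28bf6_an.Six

/-!
# Choreographies: the mass differences are charges in equilibrium
-/

open Finset

namespace Pool.Agent.Lib.MP_c28bf6_an

variable {E : Type*} [NormedAddCommGroup E] [InnerProductSpace ℝ E]

lemma sum_three {ι M : Type*} [DecidableEq ι] [AddCommMonoid M] {s : Finset ι} {a b c : ι}
    (hab : a ≠ b) (hac : a ≠ c) (hbc : b ≠ c) (hS : s = {a, b, c}) (g : ι → M) :
    ∑ j ∈ s, g j = g a + g b + g c := by
  rw [hS, Finset.sum_insert (by simp [hab, hac]), Finset.sum_pair hbc, add_assoc]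

lemma sum_four {ι M : Type*} [DecidableEq ι] [AddCommMonoid M] {s t : Finset ι} {a b c d : ι}
    (hat : a ∉ t) (hbc : b ≠ c) (hbd : b ≠ d) (hcd : c ≠ d) (hS : insert a t = s)
    (hT : t = {b, c, d}) (g : ι → M) : ∑ j ∈ s, g j = g a + g b + g c + g d := by
  rw [← hS, Finset.sum_insert hat, hT, Finset.sum_insert (by simp [hbc, hbd]),
    Finset.sum_pair hcd]
  simp only [add_assoc]

/-- A choreography, indexed by `ZMod n`; `τ` is the time shift. -/
structure Core (n : ℕ) [NeZero n] (μ : ZMod n → ℝ) (X : ZMod n → ℝ → E) (τ : ℝ) : Prop where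
  tau_pos : 0 < τ
  shift : ∀ (j s : ZMod n) (t : ℝ), X (j + s) t = X j (t + (s.val : ℝ) * τ)
  per : ∀ (j : ZMod n) (t : ℝ), X j (t + n * τ) = X j t
  nocol : ∀ (t : ℝ) (i j : ZMod n), i ≠ j → X i t ≠ X j t
  diff : ∀ j, Differentiable ℝ (X j)
  newton : ∀ (j : ZMod n) (t : ℝ),
    HasDerivAt (deriv (X j)) (∑ k, μ k • force (X k t - X j t)) t

namespace Core

variable {n : ℕ} [NeZero n] {μ : ZMod n → ℝ} {X : ZMod n → ℝ → E} {τ : ℝ}

lemma equil_shift (h : Core n μ X τ) (s i : ZMod n) (t : ℝ) :
    ∑ j, (μ (j + s) - μ j) • force (X j t - X i t) = 0 := by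
  have h1 : X (i + s) = fun t' => X i (t' + (s.val : ℝ) * τ) := by
    funext t'; exact h.shift i s t'
  have h2 : deriv (X (i + s)) = fun t' => deriv (X i) (t' + (s.val : ℝ) * τ) := by
    rw [h1]
    funext t'
    exact deriv_comp_add_const (X i) ((s.val : ℝ) * τ) t'
  set t' := t - (s.val : ℝ) * τ with ht'
  have htt : t' + (s.val : ℝ) * τ = t := by rw [ht']; ring
  have h3 := h.newton (i + s) t'
  have h4 : HasDerivAt (deriv (X (i + s))) (∑ k, μ k • force (X k t - X i t)) t' := by
    rw [h2]
    have h5 := h.newton i (t' + (s.val : ℝ) * τ)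
    rw [htt] at h5
    have h6 := HasDerivAt.comp_add_const t' ((s.val : ℝ) * τ) (f := deriv (X i)) (by
      rw [htt]; exact h5)
    exact h6
  have h7 := h3.unique h4
  have h8 : ∑ k, μ k • force (X k t' - X (i + s) t') =
      ∑ j, μ (j + s) • force (X j t - X i t) := by
    rw [← Equiv.sum_comp (Equiv.addRight s)]
    apply Finset.sum_congr rfl
    intro j _
    simp only [Equiv.coe_addRight]
    rw [h.shift j s t', h.shift i s t', htt]
  rw [h8] at h7
  simp only [sub_smul, Finset.sum_sub_distrib]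
  rw [h7, sub_self]

/-- The span of the cyclic shifts of the mass differences. -/
def W (n : ℕ) (μ : ZMod n → ℝ) : Submodule ℝ (ZMod n → ℝ) :=
  Submodule.span ℝ (Set.range (fun s : ZMod n => fun j => μ (j + s) - μ j))

omit [NeZero n] in
lemma diff_mem (s : ZMod n) : (fun j => μ (j + s) - μ j) ∈ W n μ :=
  Submodule.subset_span ⟨s, rfl⟩

omit [NeZero n] in
lemma W_shift {w : ZMod n → ℝ} (hw : w ∈ W n μ) (r : ZMod n) : (fun j => w (j + r)) ∈ W n μ := by
  induction hw using Submodule.span_induction with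
  | mem w hw =>
    obtain ⟨s, rfl⟩ := hw
    have h1 : (fun j => μ (j + r + s) - μ (j + r)) =
        (fun j => μ (j + (r + s)) - μ j) - (fun j => μ (j + r) - μ j) := by
      funext j
      simp only [Pi.sub_apply]
      rw [add_assoc]
      ring
    simp only
    rw [h1]
    exact Submodule.sub_mem _ (diff_mem _) (diff_mem _)
  | zero => exact Submodule.zero_mem _
  | add v w _ _ hv hw => exact Submodule.add_mem _ hv hw
  | smul c w _ hw => exact Submodule.smul_mem _ c hw

lemma sum_W {w : ZMod n → ℝ} (hw : w ∈ W n μ) : ∑ j, w j = 0 := by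
  induction hw using Submodule.span_induction with
  | mem w hw =>
    obtain ⟨s, rfl⟩ := hw
    simp only [Finset.sum_sub_distrib]
    rw [Equiv.sum_comp (Equiv.addRight s) μ |>.symm]
    simp
  | zero => simp
  | add v w _ _ hv hw => simp only [Pi.add_apply, Finset.sum_add_distrib, hv, hw, add_zero]
  | smul c w _ hw => simp only [Pi.smul_apply, smul_eq_mul, ← Finset.mul_sum, hw, mul_zero]

lemma equil_W (h : Core n μ X τ) {w : ZMod n → ℝ} (hw : w ∈ W n μ) (t : ℝ) (i : ZMod n) :
    ∑ j, w j • force (X j t - X i t) = 0 := by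
  induction hw using Submodule.span_induction with
  | mem w hw =>
    obtain ⟨s, rfl⟩ := hw
    exact h.equil_shift s i t
  | zero => simp
  | add v w _ _ hv hw =>
    simp only [Pi.add_apply, add_smul, Finset.sum_add_distrib, hv, hw, add_zero]
  | smul c w _ hw =>
    simp only [Pi.smul_apply, smul_eq_mul, mul_smul, ← Finset.smul_sum, hw, smul_zero]

/-- The dipole moment is constant in time. -/
lemma dipole_const (h : Core n μ X τ) {w : ZMod n → ℝ} (hw : w ∈ W n μ) (t t' : ℝ) :
    ∑ j, w j • X j t = ∑ j, w j • X j t' := by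
  set G : ℝ → E := fun t => ∑ j, w j • X j t with hG
  have hG1 : ∀ t, HasDerivAt G (∑ j, w j • deriv (X j) t) t := by
    intro t
    apply HasDerivAt.fun_sum
    intro j _
    exact ((h.diff j t).hasDerivAt).const_smul (w j)
  have hG1' : deriv G = fun t => ∑ j, w j • deriv (X j) t := by
    funext t; exact (hG1 t).deriv
  have hzero : ∀ t, ∑ j, w j • ∑ k, μ k • force (X k t - X j t) = 0 := by
    intro t
    simp only [Finset.smul_sum]
    rw [Finset.sum_comm]
    apply Finset.sum_eq_zero
    intro k _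
    have h1 : ∀ j, w j • μ k • force (X k t - X j t) =
        -(μ k • (w j • force (X j t - X k t))) := by
      intro j
      have : X k t - X j t = -(X j t - X k t) := by abel
      rw [this, force_neg, smul_neg, smul_neg, smul_comm]
    rw [Finset.sum_congr rfl (fun j _ => h1 j), Finset.sum_neg_distrib, ← Finset.smul_sum,
      h.equil_W hw, smul_zero, neg_zero]
  have hG2 : ∀ t, HasDerivAt (deriv G) 0 t := by
    intro t
    rw [hG1', ← hzero t]
    apply HasDerivAt.fun_sum
    intro j _
    exact (h.newton j t).const_smul (w j)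
  have hc : ∀ t, deriv G t = deriv G 0 := by
    intro t
    exact is_const_of_deriv_eq_zero (fun t => (hG2 t).differentiableAt) (fun t => (hG2 t).deriv) t 0
  -- G is affine
  have haff : ∀ t, G t = G 0 + t • deriv G 0 := by
    intro t
    have h1 : ∀ t, HasDerivAt (fun t => G t - t • deriv G 0) 0 t := by
      intro t
      have h2 := (hG1 t).sub ((hasDerivAt_id t).smul_const (deriv G 0))
      have h3 : (∑ j, w j • deriv (X j) t) = deriv G 0 := by
        rw [← hc t, hG1']
      rw [h3, one_smul, sub_self] at h2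
      exact h2
    have h4 := is_const_of_deriv_eq_zero (fun t => (h1 t).differentiableAt)
      (fun t => (h1 t).deriv) t 0
    simp only [zero_smul, sub_zero] at h4
    rw [← h4]
    abel
  have hper : G (0 + n * τ) = G 0 := by
    simp only [hG]
    apply Finset.sum_congr rfl
    intro j _
    rw [h.per j 0]
  rw [haff (0 + n * τ)] at hper
  have hn : (0 : ℝ) < n * τ := by
    have : 0 < n := Nat.pos_of_ne_zero (NeZero.ne n)
    have h5 : (0 : ℝ) < n := by exact_mod_cast this
    exact mul_pos h5 h.tau_pos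
  have hd : deriv G 0 = 0 := by
    have h6 : (0 + n * τ) • deriv G 0 = 0 := by
      have := add_eq_left.1 hper
      exact this
    rw [zero_add] at h6
    exact (smul_eq_zero.1 h6).resolve_left hn.ne'
  have : ∀ t, G t = G 0 := by
    intro t
    rw [haff t, hd, smul_zero, add_zero]
  exact (this t).trans (this t').symm

/-- The dipole moment vanishes. -/
lemma dipole_W (h : Core n μ X τ) {w : ZMod n → ℝ} (hw : w ∈ W n μ) (t : ℝ) :
    ∑ j, w j • X j t = 0 := by
  have h1 : ∀ s : ZMod n, ∑ j, w (j - s) • X j t = ∑ j, w j • X j t := by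
    intro s
    rw [← h.dipole_const hw (t + (s.val : ℝ) * τ) t, ← Equiv.sum_comp (Equiv.addRight s)]
    apply Finset.sum_congr rfl
    intro j _
    simp only [Equiv.coe_addRight, add_sub_cancel_right]
    rw [h.shift j s t]
  have h2 : ∑ s : ZMod n, ∑ j, w (j - s) • X j t = 0 := by
    rw [Finset.sum_comm]
    apply Finset.sum_eq_zero
    intro j _
    rw [← Finset.sum_smul]
    have h3 : ∑ s : ZMod n, w (j - s) = 0 := by
      rw [← sum_W hw]
      exact Equiv.sum_comp (Equiv.subLeft j) w
    rw [h3, zero_smul]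
  simp only [h1, Finset.sum_const, Finset.card_univ, ZMod.card] at h2
  have hn : n ≠ 0 := NeZero.ne n
  rw [← Nat.cast_smul_eq_nsmul ℝ] at h2
  exact (smul_eq_zero.1 h2).resolve_left (by exact_mod_cast hn)

/-- **Every nonzero element of `W` has at least five nonzero entries.** -/
theorem five_le_card_support (h : Core n μ X τ) {w : ZMod n → ℝ} (hw : w ∈ W n μ) (hne : w ≠ 0) :
    5 ≤ (Finset.univ.filter (fun j => w j ≠ 0)).card := by
  classical
  by_contra hcon
  push Not at hcon
  set s := Finset.univ.filter (fun j => w j ≠ 0) with hs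
  have hmem : ∀ j, j ∈ s ↔ w j ≠ 0 := by intro j; simp [hs]
  have hsumR : ∀ f : ZMod n → ℝ, ∑ j, w j * f j = ∑ j ∈ s, w j * f j := by
    intro f
    symm
    apply Finset.sum_subset (Finset.subset_univ s)
    intro j _ hj
    rw [hmem, not_not] at hj
    rw [hj, zero_mul]
  have hsumE : ∀ f : ZMod n → E, ∑ j, w j • f j = ∑ j ∈ s, w j • f j := by
    intro f
    symm
    apply Finset.sum_subset (Finset.subset_univ s)
    intro j _ hj
    rw [hmem, not_not] at hj
    rw [hj, zero_smul]
  have H0 : ∑ j ∈ s, w j = 0 := by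
    have := hsumR (fun _ => 1)
    simp only [mul_one] at this
    rw [← this, sum_W hw]
  have H1 : ∑ j ∈ s, w j • X j 0 = 0 := by rw [← hsumE, h.dipole_W hw]
  have H2 : ∀ i, ∑ j ∈ s, w j • force (X j 0 - X i 0) = 0 := by
    intro i; rw [← hsumE (fun j => force (X j 0 - X i 0)), h.equil_W hw]
  have hX : ∀ i j, i ≠ j → X i 0 ≠ X j 0 := fun i j hij => h.nocol 0 i j hij
  have hcard0 : s.card ≠ 0 := by
    intro h0
    apply hne
    rw [Finset.card_eq_zero] at h0
    funext j
    by_contra hj
    have : j ∈ s := (hmem j).2 hj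
    rw [h0] at this
    simp at this
  have hcard1 : s.card ≠ 1 := by
    intro h1
    obtain ⟨a, ha⟩ := Finset.card_eq_one.1 h1
    rw [ha, Finset.sum_singleton] at H0
    have : a ∈ s := by rw [ha]; simp
    exact (hmem a).1 this H0
  have hcases : s.card = 2 ∨ s.card = 3 ∨ s.card = 4 := by omega
  rcases hcases with hc | hc | hc
  · obtain ⟨a, b, hab, hS⟩ := Finset.card_eq_two.1 hc
    have hb : w b ≠ 0 := (hmem b).1 (by rw [hS]; simp)
    rw [hS, Finset.sum_pair hab] at H0 H1
    exact no_equilibrium_two (hX a b hab) hb H0 H1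
  · obtain ⟨a, b, c, hab, hac, hbc, hS⟩ := Finset.card_eq_three.1 hc
    have ha : w a ≠ 0 := (hmem a).1 (by rw [hS]; simp)
    have hb : w b ≠ 0 := (hmem b).1 (by rw [hS]; simp)
    have hcc : w c ≠ 0 := (hmem c).1 (by rw [hS]; simp)
    rw [sum_three hab hac hbc hS] at H0 H1
    have e0 := H2 a
    have e1 := H2 b
    rw [sum_three hab hac hbc hS] at e0 e1
    simp only [sub_self, force_zero, smul_zero, zero_add, add_zero] at e0 e1
    exact no_equilibrium_three (hX a b hab) (hX a c hac) (hX b c hbc) ha hb hcc H0 H1 e0 e1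
  · obtain ⟨a, t, hat, hS, ht⟩ := Finset.card_eq_succ.1 hc
    obtain ⟨b, c, d, hbc, hbd, hcd, hT⟩ := Finset.card_eq_three.1 ht
    have hab : a ≠ b := by rintro rfl; apply hat; rw [hT]; simp
    have hac : a ≠ c := by rintro rfl; apply hat; rw [hT]; simp
    have had : a ≠ d := by rintro rfl; apply hat; rw [hT]; simp
    have ha : w a ≠ 0 := (hmem a).1 (by rw [← hS]; simp)
    have hb : w b ≠ 0 := (hmem b).1 (by rw [← hS, hT]; simp)
    have hcc : w c ≠ 0 := (hmem c).1 (by rw [← hS, hT]; simp)
    have hdd : w d ≠ 0 := (hmem d).1 (by rw [← hS, hT]; simp)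
    rw [sum_four hat hbc hbd hcd hS hT] at H0 H1
    have e0 := H2 a
    have e1 := H2 b
    have e2 := H2 c
    rw [sum_four hat hbc hbd hcd hS hT] at e0 e1 e2
    simp only [sub_self, force_zero, smul_zero, zero_add, add_zero] at e0 e1 e2
    exact no_equilibrium_four (hX a b hab) (hX a c hac) (hX a d had) (hX b c hbc) (hX b d hbd)
      (hX c d hcd) ha hb hcc hdd H0 H1 e0 e1 e2

end Core

end Pool.Agent.Lib.MP_c28bf6_an
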