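import Pool.Agent.Lib.MP_c28bf6_an.Convert

/-!
# Commensurable masses
-/

open Finset Polynomial

namespace Pool.Agent.Lib.MP_c28bf6_an

variable {E : Type*} [NormedAddCommGroup E] [InnerProductSpace ℝ E]

/-- the shift operator -/
noncomputable def Sh (n : ℕ) : Module.End ℝ (ZMod n → ℝ) :=
  LinearMap.funLeft ℝ ℝ (fun j : ZMod n => j + 1)

lemma Sh_apply {n : ℕ} (w : ZMod n → ℝ) (j : ZMod n) : Sh n w j = w (j + 1) := rfl

lemma Sh_pow_apply {n : ℕ} (k : ℕ) (w : ZMod n → ℝ) (j : ZMod n) :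
    (Sh n ^ k) w j = w (j + k) := by
  induction k generalizing w j with
  | zero => simp
  | succ k ih =>
    rw [pow_succ, Module.End.mul_apply, ih, Sh_apply]
    push_cast
    rw [add_assoc]

lemma Sh_pow_n (n : ℕ) : Sh n ^ n = 1 := by
  ext w j
  rw [Sh_pow_apply]
  simp

/-- operator attached to a rational polynomial -/
noncomputable def op (n : ℕ) (Q : ℚ[X]) : Module.End ℝ (ZMod n → ℝ) :=
  aeval (Sh n) (Q.map (algebraMap ℚ ℝ))

lemma op_mul (n : ℕ) (P Q : ℚ[X]) : op n (P * Q) = op n P * op n Q := by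
  simp [op, Polynomial.map_mul]

lemma op_add (n : ℕ) (P Q : ℚ[X]) : op n (P + Q) = op n P + op n Q := by
  simp [op, Polynomial.map_add]

lemma op_one (n : ℕ) : op n 1 = 1 := by simp [op]

lemma op_sub (n : ℕ) (P Q : ℚ[X]) : op n (P - Q) = op n P - op n Q := by
  simp [op, Polynomial.map_sub]

lemma op_X_pow (n k : ℕ) : op n (X ^ k) = Sh n ^ k := by
  simp [op]

lemma op_sum {ι : Type*} (n : ℕ) (s : Finset ι) (f : ι → ℚ[X]) :
    op n (∑ i ∈ s, f i) = ∑ i ∈ s, op n (f i) := by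
  simp [op, Polynomial.map_sum]

lemma op_C_mul (n : ℕ) (a : ℚ) (Q : ℚ[X]) : op n (C a * Q) = (a : ℝ) • op n Q := by
  rw [op_mul]
  ext w j
  simp [op]

lemma op_eq_zero_of_dvd {n : ℕ} {Q : ℚ[X]} (h : (X ^ n - 1 : ℚ[X]) ∣ Q) : op n Q = 0 := by
  obtain ⟨R, rfl⟩ := h
  rw [op_mul, op_sub, op_X_pow, op_one, Sh_pow_n, sub_self, zero_mul]

lemma op_comm (n : ℕ) (P Q : ℚ[X]) : op n P * op n Q = op n Q * op n P := by
  rw [← op_mul, ← op_mul, mul_comm]

namespace Core

variable {n : ℕ} [NeZero n] {μ : ZMod n → ℝ} {X : ZMod n → ℝ → E} {τ : ℝ}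

omit [NeZero n] in
lemma Sh_pow_mem {w : ZMod n → ℝ} (hw : w ∈ W n μ) (k : ℕ) : (Sh n ^ k) w ∈ W n μ := by
  have : (Sh n ^ k) w = fun j => w (j + k) := by
    funext j; exact Sh_pow_apply k w j
  rw [this]
  exact W_shift hw _

omit [NeZero n] in
lemma op_mem {w : ZMod n → ℝ} (hw : w ∈ W n μ) (Q : ℚ[X]) : op n Q w ∈ W n μ := by
  rw [op, aeval_eq_sum_range, LinearMap.sum_apply]
  apply Submodule.sum_mem
  intro k _
  rw [LinearMap.smul_apply]
  exact Submodule.smul_mem _ _ (Sh_pow_mem hw k)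

/-- the polynomial of a rational vector -/
noncomputable def ratPoly (n : ℕ) [NeZero n] (r : ZMod n → ℚ) : ℚ[X] :=
  ∑ j, C (r j) * Polynomial.X ^ ((-j).val)

lemma op_ratPoly (r : ZMod n → ℚ) :
    op n (ratPoly n r) (Pi.single 0 1) = fun j => (r j : ℝ) := by
  classical
  rw [ratPoly, op_sum, LinearMap.sum_apply]
  funext i
  rw [Finset.sum_apply]
  simp only [op_C_mul, op_X_pow, LinearMap.smul_apply, Pi.smul_apply, smul_eq_mul, Sh_pow_apply,
    ZMod.natCast_zmod_val]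
  rw [Finset.sum_eq_single i]
  · simp
  · intro j _ hj
    rw [Pi.single_eq_of_ne, mul_zero]
    intro h0
    apply hj
    rw [← sub_eq_add_neg, sub_eq_zero] at h0
    exact h0.symm
  · intro hi
    exact absurd (Finset.mem_univ i) hi

/-- Key lemma: transfer from the masses to an explicit vector. -/
lemma op_single_mem {c : ℝ} {r : ZMod n → ℚ} (hμ : ∀ j, μ j = c * (r j : ℝ)) {d : ℕ} (hd : 0 < d)
    {Ψ : ℚ[X]} (hdvd : (Polynomial.X ^ n - 1 : ℚ[X]) ∣ cyclotomic d ℚ * Ψ)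
    (hmem : op n Ψ μ ∈ W n μ) (hne : op n Ψ μ ≠ 0) :
    op n Ψ (Pi.single 0 1) ∈ W n μ := by
  have hker : op n (cyclotomic d ℚ) (op n Ψ (Pi.single 0 1)) = 0 := by
    rw [← Module.End.mul_apply, ← op_mul, op_eq_zero_of_dvd hdvd, LinearMap.zero_apply]
  have hμ' : μ = c • op n (ratPoly n r) (Pi.single 0 1) := by
    rw [op_ratPoly]
    funext j
    rw [Pi.smul_apply, smul_eq_mul, hμ j]
  have hη : op n Ψ μ = c • op n (ratPoly n r) (op n Ψ (Pi.single 0 1)) := by
    rw [hμ', map_smul, ← Module.End.mul_apply, op_comm, Module.End.mul_apply]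
  have hc : c ≠ 0 := by
    rintro rfl
    apply hne
    rw [hη, zero_smul]
  have hndvd : ¬ cyclotomic d ℚ ∣ ratPoly n r := by
    rintro ⟨R, hR⟩
    apply hne
    rw [hη, hR, mul_comm, op_mul, Module.End.mul_apply, hker, map_zero, smul_zero]
  have hirr : Irreducible (cyclotomic d ℚ) := cyclotomic.irreducible_rat hd
  obtain ⟨u, v, huv⟩ := (hirr.coprime_iff_not_dvd.2 hndvd).symm
  have h1 : op n Ψ (Pi.single 0 1) = op n u (op n (ratPoly n r) (op n Ψ (Pi.single 0 1))) := by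
    have h2 : op n (u * ratPoly n r + v * cyclotomic d ℚ) (op n Ψ (Pi.single 0 1)) =
        op n Ψ (Pi.single 0 1) := by
      rw [huv, op_one, Module.End.one_apply]
    rw [op_add, op_mul, op_mul, LinearMap.add_apply, Module.End.mul_apply, Module.End.mul_apply,
      hker, map_zero, add_zero] at h2
    exact h2.symm
  have h3 : op n (ratPoly n r) (op n Ψ (Pi.single 0 1)) = c⁻¹ • op n Ψ μ := by
    rw [hη, smul_smul, inv_mul_cancel₀ hc, one_smul]
  rw [h1, h3]
  exact op_mem (Submodule.smul_mem _ _ hmem) u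

end Core

end Pool.Agent.Lib.MP_c28bf6_an
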