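import Pool.Agent.Lib.MP_c28bf6_an.Rational

/-!
# Commensurable masses, continued
-/

open Finset Polynomial

namespace Pool.Agent.Lib.MP_c28bf6_an

variable {E : Type*} [NormedAddCommGroup E] [InnerProductSpace ℝ E]

namespace Core

variable {n : ℕ} [NeZero n] {μ : ZMod n → ℝ} {X : ZMod n → ℝ → E} {τ : ℝ}

/-- few nonzero entries -/
lemma card_lt_of_support (h : Core n μ X τ) {w : ZMod n → ℝ} (hw : w ∈ W n μ) (hne : w ≠ 0)
    (T : Finset (ZMod n)) (hT : ∀ j, w j ≠ 0 → j ∈ T) : 5 ≤ T.card := by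
  classical
  refine (h.five_le_card_support hw hne).trans (Finset.card_le_card ?_)
  intro j hj
  rw [Finset.mem_filter] at hj
  exact hT j hj.2

/-- the polynomial `(X^{p^k} - 1)(1 + X^N + … + X^{(g-1)N})` -/
noncomputable def PsiPoly (a N g : ℕ) : ℚ[X] :=
  (Polynomial.X ^ a - 1) * ∑ i ∈ Finset.range g, Polynomial.X ^ (i * N)

omit [NeZero n] in
lemma op_PsiPoly (a N g : ℕ) (w : ZMod n → ℝ) (j : ZMod n) :
    op n (PsiPoly a N g) w j =
      ∑ i ∈ Finset.range g, (w (j + ((i * N : ℕ) : ZMod n) + (a : ZMod n)) -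
        w (j + ((i * N : ℕ) : ZMod n))) := by
  rw [PsiPoly, mul_comm, op_mul, Module.End.mul_apply, op_sum, LinearMap.sum_apply,
    Finset.sum_apply]
  apply Finset.sum_congr rfl
  intro i _
  rw [op_X_pow, Sh_pow_apply, op_sub, op_X_pow, op_one, LinearMap.sub_apply, Pi.sub_apply,
    Sh_pow_apply, Module.End.one_apply]

theorem class_sum (h : Core n μ X τ) {c : ℝ} {r : ZMod n → ℚ} (hμ : ∀ j, μ j = c * (r j : ℝ))
    {p k g : ℕ} (hp : p.Prime) (hg1 : 1 ≤ g) (hg3 : g ≤ 3) (hn : n = g * p ^ (k + 1))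
    (j : ZMod n) :
    ∑ i ∈ Finset.range g, μ (j + ((i * p ^ (k + 1) : ℕ) : ZMod n) + ((p ^ k : ℕ) : ZMod n)) =
      ∑ i ∈ Finset.range g, μ (j + ((i * p ^ (k + 1) : ℕ) : ZMod n)) := by
  classical
  by_contra hcon
  set N := p ^ (k + 1) with hN
  set a := p ^ k with ha
  have hNpos : 0 < N := pow_pos hp.pos _
  have hapos : 0 < a := pow_pos hp.pos _
  have haN : a < N := by
    rw [ha, hN]
    exact Nat.pow_lt_pow_right hp.one_lt (Nat.lt_succ_self k)
  have hNn : N ∣ n := ⟨g, by rw [hn]; ring⟩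
  have hdvd : (Polynomial.X ^ n - 1 : ℚ[X]) ∣ cyclotomic N ℚ * PsiPoly a N g := by
    have h1 : cyclotomic N ℚ * (Polynomial.X ^ a - 1) = Polynomial.X ^ N - 1 := by
      have : Fact p.Prime := ⟨hp⟩
      exact cyclotomic_prime_pow_mul_X_pow_sub_one ℚ p k
    rw [PsiPoly, ← mul_assoc, h1]
    have h2 : (Polynomial.X ^ N - 1 : ℚ[X]) * ∑ i ∈ Finset.range g, Polynomial.X ^ (i * N) =
        Polynomial.X ^ n - 1 := by
      have h3 : ∀ i, (Polynomial.X : ℚ[X]) ^ (i * N) = (Polynomial.X ^ N) ^ i := by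
        intro i; rw [← pow_mul, mul_comm]
      simp only [h3]
      rw [mul_geom_sum, ← pow_mul, hn, mul_comm N g]
    rw [h2]
  have hmem : op n (PsiPoly a N g) μ ∈ W n μ := by
    rw [PsiPoly, mul_comm, op_mul, Module.End.mul_apply]
    apply op_mem
    have : op n (Polynomial.X ^ a - 1) μ = fun j => μ (j + (a : ZMod n)) - μ j := by
      funext j
      rw [op_sub, op_X_pow, op_one, LinearMap.sub_apply, Pi.sub_apply, Sh_pow_apply,
        Module.End.one_apply]
    rw [this]
    exact diff_mem _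
  have hne : op n (PsiPoly a N g) μ ≠ 0 := by
    intro h0
    apply hcon
    have := congrFun h0 j
    rw [op_PsiPoly, Finset.sum_sub_distrib, Pi.zero_apply, sub_eq_zero] at this
    exact this
  have hv := op_single_mem hμ hNpos hdvd hmem hne
  set v := op n (PsiPoly a N g) (Pi.single 0 1) with hvdef
  have hva : ∀ j, v j = ∑ i ∈ Finset.range g,
      ((Pi.single 0 1 : ZMod n → ℝ) (j + ((i * N : ℕ) : ZMod n) + (a : ZMod n)) -
        (Pi.single 0 1 : ZMod n → ℝ) (j + ((i * N : ℕ) : ZMod n))) := by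
    intro j; rw [hvdef, op_PsiPoly]
  -- v 0 = -1
  have hv0 : v 0 = -1 := by
    rw [hva, Finset.sum_sub_distrib]
    have h1 : ∑ i ∈ Finset.range g,
        (Pi.single 0 1 : ZMod n → ℝ) (0 + ((i * N : ℕ) : ZMod n) + (a : ZMod n)) = 0 := by
      apply Finset.sum_eq_zero
      intro i hi
      apply Pi.single_eq_of_ne
      rw [zero_add, ← Nat.cast_add]
      intro h0
      rw [ZMod.natCast_eq_zero_iff] at h0
      have h2 : N ∣ i * N + a := hNn.trans h0
      have h3 : N ∣ a := (Nat.dvd_add_right (Dvd.intro_left i rfl)).1 h2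
      exact absurd (Nat.le_of_dvd hapos h3) (not_le.2 haN)
    have h2 : ∑ i ∈ Finset.range g,
        (Pi.single 0 1 : ZMod n → ℝ) (0 + ((i * N : ℕ) : ZMod n)) = 1 := by
      rw [Finset.sum_eq_single 0]
      · simp
      · intro i hi hi0
        apply Pi.single_eq_of_ne
        rw [zero_add]
        intro h0
        rw [ZMod.natCast_eq_zero_iff, hn] at h0
        have h3 : g ∣ i := Nat.dvd_of_mul_dvd_mul_right hNpos h0
        exact absurd (Nat.le_of_dvd (Nat.pos_of_ne_zero hi0) h3)
          (not_le.2 (Finset.mem_range.1 hi))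
      · intro h0
        exact absurd (Finset.mem_range.2 (by omega)) h0
    rw [h1, h2]
    norm_num
  have hvne : v ≠ 0 := by
    intro h0
    rw [h0, Pi.zero_apply] at hv0
    norm_num at hv0
  have hsupp : ∀ j, v j ≠ 0 → j ∈ ((Finset.range g).image (fun i : ℕ =>
      -(((i * N : ℕ) : ZMod n) + (a : ZMod n)))) ∪
      ((Finset.range g).image (fun i : ℕ => -((i * N : ℕ) : ZMod n))) := by
    intro j hj
    by_contra hcon2
    apply hj
    rw [hva]
    apply Finset.sum_eq_zero
    intro i hi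
    rw [Finset.mem_union, not_or] at hcon2
    rw [Pi.single_eq_of_ne, Pi.single_eq_of_ne, sub_zero]
    · intro h0
      apply hcon2.2
      rw [Finset.mem_image]
      exact ⟨i, hi, by linear_combination -h0⟩
    · intro h0
      apply hcon2.1
      rw [Finset.mem_image]
      exact ⟨i, hi, by linear_combination -h0⟩
  have hcard := h.card_lt_of_support hv hvne _ hsupp
  have hg : g = 3 := by
    have h1 := Finset.card_union_le ((Finset.range g).image (fun i : ℕ =>
      -(((i * N : ℕ) : ZMod n) + (a : ZMod n))))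
      ((Finset.range g).image (fun i : ℕ => -((i * N : ℕ) : ZMod n)))
    have h2 : ((Finset.range g).image (fun i : ℕ =>
      -(((i * N : ℕ) : ZMod n) + (a : ZMod n)))).card ≤ g := by
      refine Finset.card_image_le.trans ?_
      rw [Finset.card_range]
    have h3 : ((Finset.range g).image (fun i : ℕ => -((i * N : ℕ) : ZMod n))).card ≤ g := by
      refine Finset.card_image_le.trans ?_
      rw [Finset.card_range]
    omega
  -- the case g = 3
  have hcast : ∀ i i' : ℕ, -((a : ZMod n)) - ((i * N : ℕ) : ZMod n) ≠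
      -((i' * N : ℕ) : ZMod n) := by
    intro i i' h0
    have h1 := congrArg (ZMod.castHom hNn (ZMod N)) h0
    simp only [map_sub, map_neg, map_natCast] at h1
    rw [Nat.cast_mul, Nat.cast_mul, ZMod.natCast_self, mul_zero, mul_zero, sub_zero, neg_zero,
      neg_eq_zero, ZMod.natCast_eq_zero_iff] at h1
    exact absurd (Nat.le_of_dvd hapos h1) (not_le.2 haN)
  have hsingle : ∀ b j : ZMod n, (Pi.single 0 1 : ZMod n → ℝ) (j + b) =
      (Pi.single (-b) 1 : ZMod n → ℝ) j := by
    intro b j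
    by_cases hj : j = -b
    · rw [hj, Pi.single_eq_same, neg_add_cancel, Pi.single_eq_same]
    · rw [Pi.single_eq_of_ne hj, Pi.single_eq_of_ne]
      intro h0
      exact hj (eq_neg_of_add_eq_zero_left h0)
  have h3N : ((N : ℕ) : ZMod n) ≠ 0 := by
    intro h0
    rw [ZMod.natCast_eq_zero_iff, hn, hg] at h0
    have := Nat.le_of_dvd hNpos h0
    omega
  have c00 := hcast 0 0
  have c01 := hcast 0 1
  have c02 := hcast 0 2
  have c10 := hcast 1 0
  have c11 := hcast 1 1
  have c12 := hcast 1 2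
  have c20 := hcast 2 0
  have c21 := hcast 2 1
  have c22 := hcast 2 2
  simp only [Nat.zero_mul, Nat.one_mul, Nat.cast_zero, sub_zero, neg_zero]
    at c00 c01 c02 c10 c11 c12 c20 c21 c22
  have s0 : -(a : ZMod n) + (a : ZMod n) = 0 := neg_add_cancel _
  have s1 : -(a : ZMod n) - ((N : ℕ) : ZMod n) + (a : ZMod n) = -((N : ℕ) : ZMod n) := by ring
  have s2 : -(a : ZMod n) - ((2 * N : ℕ) : ZMod n) + (a : ZMod n) = -((2 * N : ℕ) : ZMod n) := by
    ring
  apply h.no_triple (a := -(a : ZMod n)) (b := -(a : ZMod n) - ((N : ℕ) : ZMod n))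
    (c := -(a : ZMod n) - ((2 * N : ℕ) : ZMod n)) (s := (a : ZMod n))
  · intro h0
    apply h3N
    linear_combination h0
  · rw [s0]; exact c00
  · rw [s1]; exact c01
  · rw [s2]; exact c02
  · rw [s0]; exact c10
  · rw [s1]; exact c11
  · rw [s2]; exact c12
  · rw [s0]; exact c20
  · rw [s1]; exact c21
  · rw [s2]; exact c22
  · rw [s0, s1, s2]
    convert hv using 1
    funext j
    rw [hva, hg, Finset.sum_range_succ, Finset.sum_range_succ, Finset.sum_range_succ,
      Finset.sum_range_zero]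
    simp only [Nat.zero_mul, Nat.one_mul, Nat.cast_zero, add_zero, zero_add, Pi.add_apply,
      Pi.sub_apply]
    rw [add_assoc j (((2 * N : ℕ) : ZMod n)) (a : ZMod n),
      add_assoc j ((N : ZMod n)) (a : ZMod n), hsingle (a : ZMod n), hsingle (N : ZMod n),
      hsingle (((2 * N : ℕ) : ZMod n)), hsingle ((N : ZMod n) + (a : ZMod n)),
      hsingle (((2 * N : ℕ) : ZMod n) + (a : ZMod n)),
      show -((N : ZMod n) + (a : ZMod n)) = -(a : ZMod n) - ((N : ℕ) : ZMod n) by ring,
      show -(((2 * N : ℕ) : ZMod n) + (a : ZMod n)) =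
        -(a : ZMod n) - ((2 * N : ℕ) : ZMod n) by ring]
    ring

end Core

end Pool.Agent.Lib.MP_c28bf6_an
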