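import Pool.Agent.Lib.MP_c28bf6_an.Rational2

/-!
# Commensurable masses: two prime factors and corollaries
-/

open Finset Polynomial

namespace Pool.Agent.Lib.MP_c28bf6_an

variable {E : Type*} [NormedAddCommGroup E] [InnerProductSpace ℝ E]

lemma X_pow_sub_one_dvd {d A : ℕ} (h : d ∣ A) :
    (Polynomial.X ^ d - 1 : ℚ[X]) ∣ Polynomial.X ^ A - 1 := by
  obtain ⟨e, rfl⟩ := h
  have := sub_dvd_pow_sub_pow (Polynomial.X ^ d : ℚ[X]) 1 e
  rwa [one_pow, ← pow_mul] at this

lemma dvd_A_or_B {p q u v d : ℕ} (hp : p.Prime) (hq : q.Prime)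
    (hd : d ∣ p ^ (u + 1) * q ^ (v + 1)) (hne : d ≠ p ^ (u + 1) * q ^ (v + 1)) :
    d ∣ p ^ u * q ^ (v + 1) ∨ d ∣ p ^ (u + 1) * q ^ v := by
  obtain ⟨e, he⟩ := hd
  have he1 : e ≠ 1 := by
    rintro rfl
    apply hne
    rw [he, mul_one]
  obtain ⟨r, hr, hre⟩ := Nat.exists_prime_and_dvd he1
  obtain ⟨e', rfl⟩ := hre
  have hrn : r ∣ p ^ (u + 1) * q ^ (v + 1) := by
    rw [he]
    exact ⟨d * e', by ring⟩
  rcases (Nat.Prime.dvd_mul hr).1 hrn with h1 | h1
  · have hrp : r = p := (Nat.prime_dvd_prime_iff_eq hr hp).1 (hr.dvd_of_dvd_pow h1)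
    subst hrp
    left
    refine ⟨e', ?_⟩
    have : r * (r ^ u * q ^ (v + 1)) = r * (d * e') := by
      calc r * (r ^ u * q ^ (v + 1)) = r ^ (u + 1) * q ^ (v + 1) := by ring
        _ = d * (r * e') := he
        _ = r * (d * e') := by ring
    exact Nat.eq_of_mul_eq_mul_left hr.pos this
  · have hrq : r = q := (Nat.prime_dvd_prime_iff_eq hr hq).1 (hr.dvd_of_dvd_pow h1)
    subst hrq
    right
    refine ⟨e', ?_⟩
    have : r * (p ^ (u + 1) * r ^ v) = r * (d * e') := by
      calc r * (p ^ (u + 1) * r ^ v) = p ^ (u + 1) * r ^ (v + 1) := by ring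
        _ = d * (r * e') := he
        _ = r * (d * e') := by ring
    exact Nat.eq_of_mul_eq_mul_left hr.pos this

namespace Core

variable {n : ℕ} [NeZero n] {μ : ZMod n → ℝ} {X : ZMod n → ℝ → E} {τ : ℝ}

theorem mixed_difference (h : Core n μ X τ) {c : ℝ} {r : ZMod n → ℚ}
    (hμ : ∀ j, μ j = c * (r j : ℝ)) {p q u v : ℕ} (hp : p.Prime) (hq : q.Prime) (hpq : p ≠ q)
    (hn : n = p ^ (u + 1) * q ^ (v + 1)) (j : ZMod n) :
    μ (j + ((p ^ u * q ^ (v + 1) : ℕ) : ZMod n) + ((p ^ (u + 1) * q ^ v : ℕ) : ZMod n)) + μ j =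
      μ (j + ((p ^ u * q ^ (v + 1) : ℕ) : ZMod n)) +
      μ (j + ((p ^ (u + 1) * q ^ v : ℕ) : ZMod n)) := by
  classical
  by_contra hcon
  obtain ⟨A, hA⟩ : ∃ A, A = p ^ u * q ^ (v + 1) := ⟨_, rfl⟩
  obtain ⟨B, hB⟩ : ∃ B, B = p ^ (u + 1) * q ^ v := ⟨_, rfl⟩
  rw [← hA, ← hB] at hcon
  have hnpos : 0 < n := Nat.pos_of_ne_zero (NeZero.ne n)
  have hApos : 0 < A := by rw [hA]; have := hp.pos; have := hq.pos; positivity
  have hBpos : 0 < B := by rw [hB]; have := hp.pos; have := hq.pos; positivity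
  have hABn : A + B < n := by
    have h1 : p + q < p * q := by
      have hp2 := hp.two_le
      have hq2 := hq.two_le
      rcases Nat.lt_or_gt_of_ne hpq with h2 | h2 <;> nlinarith
    have h2 : A + B = p ^ u * q ^ v * (p + q) := by rw [hA, hB]; ring
    have h3 : n = p ^ u * q ^ v * (p * q) := by rw [hn]; ring
    rw [h2, h3]
    apply Nat.mul_lt_mul_of_pos_left h1
    have := hp.pos; have := hq.pos; positivity
  set Ψ : ℚ[X] := (Polynomial.X ^ A - 1) * (Polynomial.X ^ B - 1) with hΨ
  have hdvd : (Polynomial.X ^ n - 1 : ℚ[X]) ∣ cyclotomic n ℚ * Ψ := by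
    rw [← prod_cyclotomic_eq_X_pow_sub_one hnpos ℚ]
    apply Finset.prod_dvd_of_coprime
    · intro a _ b _ hab
      exact cyclotomic.isCoprime_rat hab
    · intro d hd
      by_cases hdn : d = n
      · subst hdn
        exact Dvd.intro _ rfl
      · apply Dvd.dvd.mul_left
        have hd' := Nat.dvd_of_mem_divisors hd
        rw [hn] at hd' hdn
        rcases dvd_A_or_B hp hq hd' hdn with h1 | h1
        · rw [← hA] at h1
          exact ((cyclotomic.dvd_X_pow_sub_one d ℚ).trans (X_pow_sub_one_dvd h1)).mul_right _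
        · rw [← hB] at h1
          exact ((cyclotomic.dvd_X_pow_sub_one d ℚ).trans (X_pow_sub_one_dvd h1)).mul_left _
  have hop : ∀ (w : ZMod n → ℝ) (j : ZMod n), op n Ψ w j =
      w (j + (A : ZMod n) + (B : ZMod n)) - w (j + (A : ZMod n)) - (w (j + (B : ZMod n)) - w j) := by
    intro w j
    rw [hΨ, op_mul, Module.End.mul_apply, op_sub, op_X_pow, op_one, LinearMap.sub_apply,
      Pi.sub_apply, Sh_pow_apply, Module.End.one_apply, op_sub, op_X_pow, op_one,
      LinearMap.sub_apply, Pi.sub_apply, Pi.sub_apply, Sh_pow_apply, Sh_pow_apply,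
      Module.End.one_apply]
  have hmem : op n Ψ μ ∈ W n μ := by
    rw [hΨ, op_mul, Module.End.mul_apply]
    apply op_mem
    have : op n (Polynomial.X ^ B - 1) μ = fun j => μ (j + (B : ZMod n)) - μ j := by
      funext j
      rw [op_sub, op_X_pow, op_one, LinearMap.sub_apply, Pi.sub_apply, Sh_pow_apply,
        Module.End.one_apply]
    rw [this]
    exact diff_mem _
  have hne : op n Ψ μ ≠ 0 := by
    intro h0
    apply hcon
    have := congrFun h0 j
    rw [hop, Pi.zero_apply] at this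
    linarith
  have hv := op_single_mem hμ hnpos hdvd hmem hne
  set w := op n Ψ (Pi.single 0 1) with hw
  have hz : ∀ a : ℕ, 0 < a → a < n → (Pi.single 0 1 : ZMod n → ℝ) (a : ZMod n) = 0 := by
    intro a ha0 han
    apply Pi.single_eq_of_ne
    intro h0
    rw [ZMod.natCast_eq_zero_iff] at h0
    exact absurd (Nat.le_of_dvd ha0 h0) (not_le.2 han)
  have hw0 : w 0 = 1 := by
    rw [hw, hop, zero_add, zero_add, ← Nat.cast_add, hz (A + B) (by omega) hABn,
      hz A hApos (by omega), hz B hBpos (by omega), Pi.single_eq_same]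
    norm_num
  have hwne : w ≠ 0 := by
    intro h0
    rw [h0, Pi.zero_apply] at hw0
    norm_num at hw0
  have hcard := h.card_lt_of_support hv hwne
    {-((A : ZMod n) + (B : ZMod n)), -(A : ZMod n), -(B : ZMod n), 0} (by
      intro i hi
      by_contra hcon2
      simp only [Finset.mem_insert, Finset.mem_singleton, not_or] at hcon2
      obtain ⟨h1, h2, h3, h4⟩ := hcon2
      apply hi
      rw [hw, hop, Pi.single_eq_of_ne, Pi.single_eq_of_ne, Pi.single_eq_of_ne,
        Pi.single_eq_of_ne h4]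
      · ring
      · intro h0; exact h3 (eq_neg_of_add_eq_zero_left h0)
      · intro h0; exact h2 (eq_neg_of_add_eq_zero_left h0)
      · intro h0
        apply h1
        rw [add_assoc] at h0
        exact eq_neg_of_add_eq_zero_left h0)
  have hle : ({-((A : ZMod n) + (B : ZMod n)), -(A : ZMod n), -(B : ZMod n), 0} :
      Finset (ZMod n)).card ≤ 4 := Finset.card_le_four
  omega

/-- Prime number of bodies. -/
theorem eq_of_prime (h : Core n μ X τ) {c : ℝ} {r : ZMod n → ℚ}
    (hμ : ∀ j, μ j = c * (r j : ℝ)) (hn : n.Prime) (i j : ZMod n) : μ i = μ j := by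
  have h1 : ∀ j, μ (j + 1) = μ j := by
    intro j
    have := h.class_sum hμ (p := n) (k := 0) (g := 1) hn le_rfl (by norm_num) (by ring) j
    simpa using this
  have h2 : ∀ (k : ℕ), μ (k : ZMod n) = μ 0 := by
    intro k
    induction k with
    | zero => simp
    | succ k ih => push_cast; rw [h1, ih]
  rw [← ZMod.natCast_zmod_val i, ← ZMod.natCast_zmod_val j, h2, h2]

/-- Nine bodies. -/
theorem eq_of_nine {μ : ZMod 9 → ℝ} {X : ZMod 9 → ℝ → E} (h : Core 9 μ X τ) {c : ℝ}
    {r : ZMod 9 → ℚ} (hμ : ∀ j, μ j = c * (r j : ℝ)) (i j : ZMod 9) : μ i = μ j := by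
  have h3 : ∀ j, μ (j + 3) = μ j := by
    intro j
    have := h.class_sum hμ (p := 3) (k := 1) (g := 1) (by norm_num) le_rfl (by norm_num)
      (by norm_num) j
    simpa using this
  have h1 : ∀ j, μ (j + 1) = μ j := by
    intro j
    have := h.class_sum hμ (p := 3) (k := 0) (g := 3) (by norm_num) (by norm_num) (by norm_num)
      (by norm_num) j
    rw [Finset.sum_range_succ, Finset.sum_range_succ, Finset.sum_range_succ,
      Finset.sum_range_zero, Finset.sum_range_succ, Finset.sum_range_succ, Finset.sum_range_succ,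
      Finset.sum_range_zero] at this
    norm_num at this
    have e1 := h3 j
    have e2 := h3 (j + 3)
    have e3 := h3 (j + 1)
    have e4 := h3 (j + 3 + 1)
    rw [show j + 3 + 3 = j + 6 by ring] at e2
    rw [show j + 1 + 3 = j + 3 + 1 by ring] at e3
    rw [show j + 3 + 1 + 3 = j + 6 + 1 by ring] at e4
    linarith
  have h2 : ∀ (k : ℕ), μ (k : ZMod 9) = μ 0 := by
    intro k
    induction k with
    | zero => simp
    | succ k ih => push_cast; rw [h1, ih]
  rw [← ZMod.natCast_zmod_val i, ← ZMod.natCast_zmod_val j, h2, h2]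

/-- `n = 2p` or `n = 3p`. -/
theorem period_of_mul (h : Core n μ X τ) {c : ℝ} {r : ZMod n → ℚ}
    (hμ : ∀ j, μ j = c * (r j : ℝ)) {g p : ℕ} (hg : g = 2 ∨ g = 3) (hp : p.Prime) (hpg : p ≠ g)
    (hn : n = g * p) (j : ZMod n) : μ (j + (g : ZMod n)) = μ j := by
  have hgp : g.Prime := by rcases hg with rfl | rfl <;> norm_num
  have mix : ∀ j : ZMod n, μ (j + (p : ZMod n) + (g : ZMod n)) + μ j =
      μ (j + (p : ZMod n)) + μ (j + (g : ZMod n)) := by
    intro j
    have := h.mixed_difference hμ (p := g) (q := p) (u := 0) (v := 0) hgp hp hpg.symm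
      (by rw [hn]; ring) j
    simpa using this
  have cls1 : ∀ j : ZMod n, ∑ i ∈ Finset.range g, μ (j + ((i * p : ℕ) : ZMod n) + 1) =
      ∑ i ∈ Finset.range g, μ (j + ((i * p : ℕ) : ZMod n)) := by
    intro j
    have := h.class_sum hμ (p := p) (k := 0) (g := g) hp hgp.one_lt.le
      (by rcases hg with rfl | rfl <;> norm_num) (by rw [hn]; ring) j
    simpa using this
  have cls : ∀ (j : ZMod n) (k : ℕ), ∑ i ∈ Finset.range g, μ (j + ((i * p : ℕ) : ZMod n) + k) =
      ∑ i ∈ Finset.range g, μ (j + ((i * p : ℕ) : ZMod n)) := by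
    intro j k
    induction k with
    | zero => simp
    | succ k ih =>
      rw [← ih]
      have := cls1 (j + k)
      have e1 : ∀ i : ℕ, j + ((i * p : ℕ) : ZMod n) + ((k + 1 : ℕ) : ZMod n) =
          j + k + ((i * p : ℕ) : ZMod n) + 1 := by intro i; push_cast; ring
      have e2 : ∀ i : ℕ, j + ((i * p : ℕ) : ZMod n) + (k : ZMod n) =
          j + k + ((i * p : ℕ) : ZMod n) := by intro i; ring
      simp only [e1, e2]
      exact this
  have hcls := cls j g
  rcases hg with rfl | rfl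
  · rw [Finset.sum_range_succ, Finset.sum_range_succ, Finset.sum_range_zero,
      Finset.sum_range_succ, Finset.sum_range_succ, Finset.sum_range_zero] at hcls
    simp only [Nat.zero_mul, Nat.one_mul, Nat.cast_zero, add_zero, zero_add] at hcls
    have m0 := mix j
    linarith
  · rw [Finset.sum_range_succ, Finset.sum_range_succ, Finset.sum_range_succ,
      Finset.sum_range_zero, Finset.sum_range_succ, Finset.sum_range_succ,
      Finset.sum_range_succ, Finset.sum_range_zero] at hcls
    simp only [Nat.zero_mul, Nat.one_mul, Nat.cast_zero, add_zero, zero_add] at hcls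
    have m0 := mix j
    have m1 := mix (j + p)
    rw [show j + (p : ZMod n) + (p : ZMod n) = j + ((2 * p : ℕ) : ZMod n) by push_cast; ring]
      at m1
    linarith

end Core

end Pool.Agent.Lib.MP_c28bf6_an
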