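import Pool.Agent.Lib.MP_c28bf6_an.Static

/-!
# Three positive and three negative unit charges

If both triples have the same centroid and the same outer radius, equilibrium is impossible.
-/

namespace Pool.Agent.Lib.MP_c28bf6_an

variable {E : Type*} [NormedAddCommGroup E] [InnerProductSpace ℝ E]

/-- radial part of the force at the unit vector `p` from a charge at `y` -/
noncomputable def ff (p y : E) : ℝ := (1 - inner ℝ p y) / ‖y - p‖ ^ 3

lemma ff_eq {p : E} (hp : ‖p‖ = 1) (y : E) : ff p y = -inner ℝ p (force (y - p)) := by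
  rw [ff, force, inner_smul_right, inner_sub_right, real_inner_self_eq_norm_sq, hp, div_eq_mul_inv]
  ring

section
variable {p y : E} (hp : ‖p‖ = 1)
include hp

lemma rsq_eq : ‖y - p‖ ^ 2 = 2 * (1 - inner ℝ p y) - (1 - ‖y‖ ^ 2) := by
  rw [norm_sub_sq_real, hp, real_inner_comm]
  ring

lemma h_le_r : 1 - inner ℝ p y ≤ ‖y - p‖ := by
  have h1 : 1 - inner ℝ p y = inner ℝ p (p - y) := by
    rw [inner_sub_right, real_inner_self_eq_norm_sq, hp]; ring
  rw [h1, norm_sub_rev]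
  have := real_inner_le_norm p (p - y)
  rwa [hp, one_mul] at this

lemma rsq_le (hy : ‖y‖ ≤ 1) : ‖y - p‖ ^ 2 ≤ 2 * (1 - inner ℝ p y) := by
  rw [rsq_eq hp]
  have h0 := norm_nonneg y
  nlinarith

lemma r_le_two (hy : ‖y‖ ≤ 1) : ‖y - p‖ ≤ 2 := by
  have := norm_sub_le y p
  linarith

lemma r_pos (hne : y ≠ p) : 0 < ‖y - p‖ := norm_pos_iff.2 (sub_ne_zero.2 hne)

/-- lower bound `f ≥ 1/(2r)` -/
lemma ff_ge (hy : ‖y‖ ≤ 1) (hne : y ≠ p) : 1 / (2 * ‖y - p‖) ≤ ff p y := by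
  have hr := r_pos hp hne
  have h1 := rsq_le hp hy
  rw [ff, div_le_div_iff₀ (by positivity) (by positivity)]
  nlinarith [mul_le_mul_of_nonneg_left h1 hr.le]

/-- tangent line bound -/
lemma ff_ge' (hy : ‖y‖ ≤ 1) (hne : y ≠ p) : (5.88 - ‖y - p‖ ^ 2) / 10.976 ≤ ff p y := by
  have hr := r_pos hp hne
  refine le_trans ?_ (ff_ge hp hy hne)
  rw [div_le_div_iff₀ (by norm_num) (by positivity)]
  nlinarith [mul_nonneg (sq_nonneg (‖y - p‖ - 1.4)) (by positivity : 0 ≤ ‖y - p‖ + 2.8)]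

/-- upper bound `f ≤ 1/h²` -/
lemma ff_le (hh : 0 < 1 - inner ℝ p y) : ff p y ≤ 1 / (1 - inner ℝ p y) ^ 2 := by
  have h1 := h_le_r (y := y) hp
  have hr : 0 < ‖y - p‖ := lt_of_lt_of_le hh h1
  rw [ff, div_le_div_iff₀ (by positivity) (by positivity)]
  have h2 : (1 - inner ℝ p y) ^ 3 ≤ ‖y - p‖ ^ 3 := pow_le_pow_left₀ hh.le h1 3
  nlinarith

/-- tangent bound `r³ ≥ 1.65 r² - 0.6655` -/
lemma ff_le' (hh : 0 < 1 - inner ℝ p y) (hpos : 0 < 1.65 * ‖y - p‖ ^ 2 - 0.6655) :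
    ff p y ≤ (1 - inner ℝ p y) / (1.65 * ‖y - p‖ ^ 2 - 0.6655) := by
  have h1 := h_le_r (y := y) hp
  have hr : 0 < ‖y - p‖ := lt_of_lt_of_le hh h1
  rw [ff]
  apply div_le_div_of_nonneg_left hh.le hpos
  nlinarith [mul_nonneg (sq_nonneg (‖y - p‖ - 1.1)) (by positivity : 0 ≤ ‖y - p‖ + 0.55)]

/-- (i) -/
lemma opp_ge {b1 b2 b3 : E} (h1 : ‖b1‖ ≤ 1) (h2 : ‖b2‖ ≤ 1) (h3 : ‖b3‖ ≤ 1) (n1 : b1 ≠ p)
    (n2 : b2 ≠ p) (n3 : b3 ≠ p) (hsum : b1 + b2 + b3 = 0) :
    1.06 ≤ ff p b1 + ff p b2 + ff p b3 := by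
  have g1 := ff_ge' hp h1 n1
  have g2 := ff_ge' hp h2 n2
  have g3 := ff_ge' hp h3 n3
  have r1 := rsq_le hp h1
  have r2 := rsq_le hp h2
  have r3 := rsq_le hp h3
  have hs : inner ℝ p b1 + inner ℝ p b2 + inner ℝ p b3 = 0 := by
    rw [← inner_add_right, ← inner_add_right, hsum, inner_zero_right]
  have hR : ‖b1 - p‖ ^ 2 + ‖b2 - p‖ ^ 2 + ‖b3 - p‖ ^ 2 ≤ 6 := by linarith
  have : (5.88 - ‖b1 - p‖ ^ 2) / 10.976 + (5.88 - ‖b2 - p‖ ^ 2) / 10.976 +
      (5.88 - ‖b3 - p‖ ^ 2) / 10.976 ≥ 11.64 / 10.976 := by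
    rw [← add_div, ← add_div, ge_iff_le]
    apply div_le_div_of_nonneg_right _ (by norm_num)
    linarith
  have h4 : (11.64 : ℝ) / 10.976 ≥ 1.06 := by norm_num
  linarith

/-- (iv) -/
lemma same_le {b2 b3 : E} (h2 : ‖b2‖ ≤ 1) (h3 : ‖b3‖ ≤ 1) (hsum : p + b2 + b3 = 0) :
    ff p b2 + ff p b3 ≤ 5 / 4 := by
  have hs : 1 + inner ℝ p b2 + inner ℝ p b3 = 0 := by
    have : inner ℝ p (p + b2 + b3) = 0 := by rw [hsum, inner_zero_right]
    rw [inner_add_right, inner_add_right, real_inner_self_eq_norm_sq, hp] at this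
    linarith
  have i2 : -1 ≤ inner ℝ p b2 := by
    have := abs_real_inner_le_norm p b2
    rw [hp, one_mul] at this
    linarith [(abs_le.1 (this.trans h2)).1]
  have i3 : -1 ≤ inner ℝ p b3 := by
    have := abs_real_inner_le_norm p b3
    rw [hp, one_mul] at this
    linarith [(abs_le.1 (this.trans h3)).1]
  have g2 := ff_le (y := b2) hp (by linarith)
  have g3 := ff_le (y := b3) hp (by linarith)
  set x := 1 - inner ℝ p b2 with hx
  have hy : 1 - inner ℝ p b3 = 3 - x := by rw [hx]; linarith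
  rw [hy] at g3
  have hx1 : 1 ≤ x := by rw [hx]; linarith
  have hx2 : x ≤ 2 := by rw [hx]; linarith
  have key : 1 / x ^ 2 + 1 / (3 - x) ^ 2 ≤ 5 / 4 := by
    have hx0 : 0 < x := by linarith
    have hx3 : 0 < 3 - x := by linarith
    rw [div_add_div _ _ (by positivity) (by positivity), div_le_div_iff₀ (by positivity)
      (by norm_num)]
    have hp2 : 2 ≤ x * (3 - x) := by nlinarith
    nlinarith [mul_nonneg (sub_nonneg.2 hp2) (by positivity : 0 ≤ 5 * (x * (3 - x)) + 18)]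
  linarith

/-- (ii) -/
lemma same_lt {b2 b3 : E} (h2 : ‖b2‖ ≤ 1) (h3 : ‖b3‖ ≤ 1) (hsum : p + b2 + b3 = 0)
    (hle : inner ℝ p b3 ≤ inner ℝ p b2) (hbig : 0.11 ≤ ‖b2‖ ^ 2) :
    ff p b2 + ff p b3 < 1.06 := by
  have hs : 1 + inner ℝ p b2 + inner ℝ p b3 = 0 := by
    have : inner ℝ p (p + b2 + b3) = 0 := by rw [hsum, inner_zero_right]
    rw [inner_add_right, inner_add_right, real_inner_self_eq_norm_sq, hp] at this
    linarith
  have hb3 : ‖b3‖ ^ 2 = 1 + ‖b2‖ ^ 2 + 2 * inner ℝ p b2 := by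
    have : b3 = -(p + b2) := by rw [eq_neg_iff_add_eq_zero, ← hsum]; abel
    rw [this, norm_neg, norm_add_sq_real, hp]
    ring
  have hb3' : ‖b3‖ ^ 2 ≤ 1 := by
    have := norm_nonneg b3
    nlinarith
  obtain ⟨u, hu⟩ : ∃ u, u = -inner ℝ p b2 := ⟨_, rfl⟩
  have hu2 : inner ℝ p b2 = -u := by rw [hu, neg_neg]
  have hu3 : inner ℝ p b3 = u - 1 := by linarith
  have hu_le : u ≤ 1 / 2 := by linarith
  have hu_ge : 0.055 ≤ u := by
    rw [hb3, hu2] at hb3'
    norm_num at hbig hb3' ⊢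
    linarith
  have hr2 : ‖b2 - p‖ ^ 2 = 1 + ‖b2‖ ^ 2 + 2 * u := by rw [rsq_eq hp, hu2]; ring
  have g2 := ff_le' (y := b2) hp (by rw [hu2]; linarith) (by rw [hr2]; norm_num at *; linarith)
  have g3 := ff_le (y := b3) hp (by rw [hu3]; linarith)
  rw [hu2, sub_neg_eq_add, hr2] at g2
  rw [hu3] at g3
  have h4 : (1 + u) / (1.65 * (1 + ‖b2‖ ^ 2 + 2 * u) - 0.6655) ≤ (1 + u) / (1.166 + 3.3 * u) := by
    apply div_le_div_of_nonneg_left (by linarith) (by positivity)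
    norm_num at hbig ⊢
    linarith
  have h5 : (1 + u) / (1.166 + 3.3 * u) + 1 / (1 - (u - 1)) ^ 2 < 1.06 := by
    have h6 : 0 < 1 - (u - 1) := by linarith
    rw [div_add_div _ _ (by positivity) (by positivity), div_lt_iff₀ (by positivity)]
    norm_num at hu_ge ⊢
    nlinarith [mul_nonneg (sub_nonneg.2 hu_ge) (sub_nonneg.2 hu_le),
      mul_nonneg (by positivity : 0 ≤ u) (mul_nonneg (by positivity : 0 ≤ u)
        (by positivity : 0 ≤ u))]
  linarith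

/-- (iii) -/
lemma opp_gt {a1 a2 a3 : E} (h1 : ‖a1‖ ≤ 1) (h2 : ‖a2‖ ≤ 1) (h3 : ‖a3‖ ≤ 1) (n1 : a1 ≠ p)
    (n2 : a2 ≠ p) (n3 : a3 ≠ p) (hsum : a1 + a2 + a3 = 0) (hsmall : ‖a2‖ ^ 2 ≤ 0.11) :
    5 / 4 < ff p a1 + ff p a2 + ff p a3 := by
  have r2pos := r_pos hp n2
  have hs : inner ℝ p a1 + inner ℝ p a2 + inner ℝ p a3 = 0 := by
    rw [← inner_add_right, ← inner_add_right, hsum, inner_zero_right]
  have hrho : ‖a2‖ ≤ 0.332 := by
    have := norm_nonneg a2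
    norm_num at hsmall ⊢
    nlinarith
  have hr2 := rsq_eq (y := a2) hp
  have hff : ff p a2 = (‖a2 - p‖ ^ 2 + (1 - ‖a2‖ ^ 2)) / (2 * ‖a2 - p‖ ^ 3) := by
    rw [hr2, ff]
    field_simp
    ring
  have hff' : (‖a2 - p‖ ^ 2 + 0.89) / (2 * ‖a2 - p‖ ^ 3) ≤ ff p a2 := by
    rw [hff]
    apply div_le_div_of_nonneg_right _ (by positivity)
    norm_num at hsmall ⊢
    linarith
  obtain ⟨r, hr⟩ : ∃ r, r = ‖a2 - p‖ := ⟨_, rfl⟩
  rw [← hr] at hff' hr2 r2pos
  rcases le_total 1 (1 - inner ℝ p a2) with hc | hc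
  · have hr_le : r ≤ 1.332 := by
      have := norm_sub_le a2 p
      rw [← hr] at this
      norm_num at hrho ⊢
      linarith
    have h4 : 0.56 ≤ ff p a2 := by
      refine le_trans ?_ hff'
      rw [le_div_iff₀ (by positivity)]
      norm_num at hr_le ⊢
      nlinarith [mul_nonneg (mul_nonneg r2pos.le r2pos.le) (sub_nonneg.2 hr_le),
        mul_nonneg r2pos.le (sub_nonneg.2 hr_le)]
    have g1 := ff_ge' hp h1 n1
    have g3 := ff_ge' hp h3 n3
    have r1 := rsq_le hp h1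
    have r3 := rsq_le hp h3
    have hR : ‖a1 - p‖ ^ 2 + ‖a3 - p‖ ^ 2 ≤ 4 := by linarith
    have h5 : (5.88 - ‖a1 - p‖ ^ 2) / 10.976 + (5.88 - ‖a3 - p‖ ^ 2) / 10.976 ≥
        7.76 / 10.976 := by
      rw [← add_div, ge_iff_le]
      apply div_le_div_of_nonneg_right _ (by norm_num)
      linarith
    have h6 : (7.76 : ℝ) / 10.976 ≥ 0.7 := by norm_num
    norm_num at *
    linarith
  · have hr_sq : r ^ 2 ≤ 1.11 := by
      rw [hr2]
      norm_num at hsmall ⊢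
      linarith
    have hr_le : r ≤ 1.054 := by
      norm_num at hr_sq ⊢
      nlinarith
    have h4 : 0.8 ≤ ff p a2 := by
      refine le_trans ?_ hff'
      rw [le_div_iff₀ (by positivity)]
      norm_num at hr_le ⊢
      nlinarith [mul_nonneg (mul_nonneg r2pos.le r2pos.le) (sub_nonneg.2 hr_le),
        mul_nonneg r2pos.le (sub_nonneg.2 hr_le)]
    have g1 := ff_ge hp h1 n1
    have g3 := ff_ge hp h3 n3
    have q1 : 1 / 4 ≤ 1 / (2 * ‖a1 - p‖) := by
      apply one_div_le_one_div_of_le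
      · have := r_pos hp n1; positivity
      · have := r_le_two hp h1; linarith
    have q3 : 1 / 4 ≤ 1 / (2 * ‖a3 - p‖) := by
      apply one_div_le_one_div_of_le
      · have := r_pos hp n3; positivity
      · have := r_le_two hp h3; linarith
    norm_num at h4
    linarith

end

/-- Three plus and three minus unit charges with common centroid `0` and common outer radius `1`
cannot be in equilibrium. -/
theorem no_equilibrium_six {a1 a2 a3 b1 b2 b3 : E} (ha1 : ‖a1‖ = 1) (ha2 : ‖a2‖ ≤ 1)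
    (ha3 : ‖a3‖ ≤ 1) (hb1 : ‖b1‖ = 1) (hb2 : ‖b2‖ ≤ 1) (hb3 : ‖b3‖ ≤ 1)
    (hA : a1 + a2 + a3 = 0) (hB : b1 + b2 + b3 = 0)
    (n11 : a1 ≠ b1) (n12 : a1 ≠ b2) (n13 : a1 ≠ b3) (n21 : a2 ≠ b1) (n31 : a3 ≠ b1)
    (eA : force (a2 - a1) + force (a3 - a1) = force (b1 - a1) + force (b2 - a1) + force (b3 - a1))
    (eB : force (b2 - b1) + force (b3 - b1) = force (a1 - b1) + force (a2 - b1) + force (a3 - b1)) :
    False := by
  have sA : ff a1 a2 + ff a1 a3 = ff a1 b1 + ff a1 b2 + ff a1 b3 := by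
    have := congrArg (fun v => -inner ℝ a1 v) eA
    simp only [inner_add_right] at this
    simp only [ff_eq ha1]
    linarith
  have sB : ff b1 b2 + ff b1 b3 = ff b1 a1 + ff b1 a2 + ff b1 a3 := by
    have := congrArg (fun v => -inner ℝ b1 v) eB
    simp only [inner_add_right] at this
    simp only [ff_eq hb1]
    linarith
  have o1 := opp_ge ha1 hb1.le hb2 hb3 n11.symm n12.symm n13.symm hB
  have o2 := same_le hb1 hb2 hb3 hB
  rcases le_total (inner ℝ a1 a3) (inner ℝ a1 a2) with h | h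
  · have hsmall : ‖a2‖ ^ 2 ≤ 0.11 := by
      by_contra hcon
      push Not at hcon
      have := same_lt ha1 ha2 ha3 hA h hcon.le
      linarith
    have := opp_gt hb1 ha1.le ha2 ha3 n11 n21 n31 hA hsmall
    linarith
  · have hsmall : ‖a3‖ ^ 2 ≤ 0.11 := by
      by_contra hcon
      push Not at hcon
      have := same_lt ha1 ha3 ha2 (by rw [← hA]; abel) h hcon.le
      linarith
    have := opp_gt hb1 ha1.le ha3 ha2 n11 n31 n21 (by rw [← hA]; abel) hsmall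
    linarith

end Pool.Agent.Lib.MP_c28bf6_an
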