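import Mathlib

/-!
# Static lemmas: charges in equilibrium

`force v = v / |v|^3`.  We show that few charges with total charge zero and dipole zero cannot
be in equilibrium.
-/

open Finset

namespace Pool.Agent.Lib.MP_c28bf6_an

variable {E : Type*} [NormedAddCommGroup E] [InnerProductSpace ℝ E]

/-- `v / |v|^3` -/
noncomputable def force (v : E) : E := (‖v‖ ^ 3)⁻¹ • v

@[simp] lemma force_zero : force (0 : E) = 0 := by simp [force]

lemma force_neg (v : E) : force (-v) = -force v := by simp [force]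

lemma force_smul (c : ℝ) (v : E) : force (c • v) = ((|c| ^ 3)⁻¹ * c) • force v := by
  rw [force, force, norm_smul, mul_pow, mul_inv, smul_smul, smul_smul, Real.norm_eq_abs]
  congr 1
  ring

/-- the one-dimensional force -/
noncomputable def phi (s : ℝ) : ℝ := (|s| ^ 3)⁻¹ * s

lemma phi_neg (s : ℝ) : phi (-s) = -phi s := by simp [phi]

lemma phi_mul (s t : ℝ) : phi (s * t) = phi s * phi t := by
  rw [phi, phi, phi, abs_mul, mul_pow, mul_inv]
  ring

lemma phi_of_pos {s : ℝ} (h : 0 < s) : phi s = 1 / s ^ 2 := by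
  rw [phi, abs_of_pos h]
  field_simp

lemma phi_of_neg {s : ℝ} (h : s < 0) : phi s = -(1 / s ^ 2) := by
  have : phi s = -phi (-s) := by rw [phi_neg, neg_neg]
  rw [this, phi_of_pos (by linarith), neg_sq]

/-- `φ(X) + φ(Y) = φ(X + Y)` is impossible. -/
lemma phi_add_ne {X Y : ℝ} (hX : X ≠ 0) (hY : Y ≠ 0) (hZ : X + Y ≠ 0) :
    phi X + phi Y ≠ phi (X + Y) := by
  -- the case `0 < X + Y`
  have key : ∀ X Y : ℝ, X ≠ 0 → Y ≠ 0 → 0 < X + Y → phi X + phi Y ≠ phi (X + Y) := by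
    have key2 : ∀ X Y : ℝ, X ≠ 0 → Y ≠ 0 → 0 < X + Y → Y ≤ X → phi X + phi Y ≠ phi (X + Y) := by
      intro X Y hX hY hZ hYX h
      have hXp : 0 < X := by linarith
      rw [phi_of_pos hXp, phi_of_pos hZ] at h
      rcases lt_or_gt_of_ne hY with hY' | hY'
      · rw [phi_of_neg hY'] at h
        have h1 : 1 / X ^ 2 < 1 / (X + Y) ^ 2 := by
          apply one_div_lt_one_div_of_lt (by positivity)
          nlinarith
        have h2 : 0 < 1 / Y ^ 2 := by positivity
        linarith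
      · rw [phi_of_pos hY'] at h
        have h1 : 1 / (X + Y) ^ 2 < 1 / X ^ 2 := by
          apply one_div_lt_one_div_of_lt (by positivity)
          nlinarith
        have h2 : 0 < 1 / Y ^ 2 := by positivity
        linarith
    intro X Y hX hY hZ
    rcases le_total Y X with h | h
    · exact key2 X Y hX hY hZ h
    · intro h'
      apply key2 Y X hY hX (by linarith) h
      rw [add_comm, h', add_comm]
  rcases lt_or_gt_of_ne hZ with h | h
  · intro h'
    apply key (-X) (-Y) (by simpa using hX) (by simpa using hY) (by linarith)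
    rw [show -X + -Y = -(X + Y) by ring, phi_neg, phi_neg, phi_neg, ← h']
    ring
  · exact key X Y hX hY h

/-- Four distinct points on a line, not all charges zero: no equilibrium. -/
lemma no_equilibrium_line {s0 s1 s2 s3 c0 c1 c2 c3 : ℝ}
    (h01 : s0 ≠ s1) (h02 : s0 ≠ s2) (h03 : s0 ≠ s3) (h12 : s1 ≠ s2) (h13 : s1 ≠ s3)
    (h23 : s2 ≠ s3) (hc : c3 ≠ 0)
    (e0 : c1 * phi (s1 - s0) + c2 * phi (s2 - s0) + c3 * phi (s3 - s0) = 0)
    (e1 : c0 * phi (s0 - s1) + c2 * phi (s2 - s1) + c3 * phi (s3 - s1) = 0)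
    (e2 : c0 * phi (s0 - s2) + c1 * phi (s1 - s2) + c3 * phi (s3 - s2) = 0) : False := by
  have n01 : phi (s0 - s1) = -phi (s1 - s0) := by rw [← phi_neg, neg_sub]
  have n02 : phi (s0 - s2) = -phi (s2 - s0) := by rw [← phi_neg, neg_sub]
  have n12 : phi (s1 - s2) = -phi (s2 - s1) := by rw [← phi_neg, neg_sub]
  rw [n01] at e1
  rw [n02, n12] at e2
  have hPf : c3 * (phi (s1 - s0) * phi (s3 - s2) - phi (s2 - s0) * phi (s3 - s1) +
      phi (s3 - s0) * phi (s2 - s1)) = 0 := by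
    linear_combination phi (s2 - s1) * e0 - phi (s2 - s0) * e1 + phi (s1 - s0) * e2
  have hPf' := (mul_eq_zero.1 hPf).resolve_left hc
  rw [← phi_mul, ← phi_mul, ← phi_mul] at hPf'
  have hX : (s1 - s0) * (s3 - s2) ≠ 0 :=
    mul_ne_zero (sub_ne_zero.2 h01.symm) (sub_ne_zero.2 h23.symm)
  have hY : (s3 - s0) * (s2 - s1) ≠ 0 :=
    mul_ne_zero (sub_ne_zero.2 h03.symm) (sub_ne_zero.2 h12.symm)
  have hXY : (s1 - s0) * (s3 - s2) + (s3 - s0) * (s2 - s1) = (s2 - s0) * (s3 - s1) := by ring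
  have hZ : (s1 - s0) * (s3 - s2) + (s3 - s0) * (s2 - s1) ≠ 0 := by
    rw [hXY]
    exact mul_ne_zero (sub_ne_zero.2 h02.symm) (sub_ne_zero.2 h13.symm)
  apply phi_add_ne hX hY hZ
  rw [hXY]
  linarith

/-- Two vectors in the real span of each other or independent. -/
lemma collinear_or_indep (u v : E) (hu : u ≠ 0) :
    (∃ c : ℝ, v = c • u) ∨ (∀ a b : ℝ, a • u + b • v = 0 → a = 0 ∧ b = 0) := by
  by_cases h : ∃ c : ℝ, v = c • u
  · left; exact h
  · right
    intro a b hab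
    have hb : b = 0 := by
      by_contra hb
      apply h
      refine ⟨-(a / b), ?_⟩
      have h1 : b • v = -(a • u) := by
        rw [eq_neg_iff_add_eq_zero, add_comm]
        exact hab
      have h2 : v = b⁻¹ • (b • v) := by rw [smul_smul, inv_mul_cancel₀ hb, one_smul]
      rw [h2, h1, smul_neg, smul_smul, neg_smul, div_eq_inv_mul]
    subst hb
    rw [zero_smul, add_zero] at hab
    exact ⟨(smul_eq_zero.1 hab).resolve_right hu, rfl⟩

lemma inv_pow_three_inj {x y : ℝ} (hx : 0 < x) (hy : 0 < y) (h : (x ^ 3)⁻¹ = (y ^ 3)⁻¹) :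
    x = y := by
  have h1 : x ^ 3 = y ^ 3 := inv_injective h
  exact (pow_left_inj₀ hx.le hy.le (by norm_num)).1 h1

/-- Two charges. -/
lemma no_equilibrium_two {y0 y1 : E} {c0 c1 : ℝ} (h01 : y0 ≠ y1) (hc1 : c1 ≠ 0)
    (hs : c0 + c1 = 0) (hd : c0 • y0 + c1 • y1 = 0) : False := by
  have h0 : c0 = -c1 := by linarith
  rw [h0, neg_smul, neg_add_eq_zero] at hd
  have := smul_right_injective E hc1 hd
  exact h01 this

/-- Three charges: consequence at one of the points. -/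
lemma three_aux {y0 y1 y2 : E} {c0 c1 c2 : ℝ} (h01 : y0 ≠ y1) (h02 : y0 ≠ y2)
    (hc1 : c1 ≠ 0) (hs : c0 + c1 + c2 = 0)
    (hd : c0 • y0 + c1 • y1 + c2 • y2 = 0)
    (e0 : c1 • force (y1 - y0) + c2 • force (y2 - y0) = 0) :
    ‖y1 - y0‖ = ‖y2 - y0‖ := by
  have hu : c1 • (y1 - y0) + c2 • (y2 - y0) = 0 := by
    have : c1 • (y1 - y0) + c2 • (y2 - y0) =
        (c0 • y0 + c1 • y1 + c2 • y2) - (c0 + c1 + c2) • y0 := by
      simp only [smul_sub, add_smul]
      abel
    rw [this, hd, hs, zero_smul, sub_zero]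
  have h1 : c2 • (y2 - y0) = -(c1 • (y1 - y0)) := by
    rw [eq_neg_iff_add_eq_zero, add_comm]; exact hu
  rw [force, force, smul_comm c1, smul_comm c2, h1, smul_neg, ← sub_eq_add_neg, ← sub_smul] at e0
  have hne : c1 • (y1 - y0) ≠ 0 := smul_ne_zero hc1 (sub_ne_zero.2 h01.symm)
  have h2 := (smul_eq_zero.1 e0).resolve_right hne
  exact inv_pow_three_inj (norm_pos_iff.2 (sub_ne_zero.2 h01.symm))
    (norm_pos_iff.2 (sub_ne_zero.2 h02.symm)) (sub_eq_zero.1 h2)

lemma no_equilibrium_three {y0 y1 y2 : E} {c0 c1 c2 : ℝ} (h01 : y0 ≠ y1) (h02 : y0 ≠ y2)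
    (h12 : y1 ≠ y2) (hc0 : c0 ≠ 0) (hc1 : c1 ≠ 0) (hc2 : c2 ≠ 0) (hs : c0 + c1 + c2 = 0)
    (hd : c0 • y0 + c1 • y1 + c2 • y2 = 0)
    (e0 : c1 • force (y1 - y0) + c2 • force (y2 - y0) = 0)
    (e1 : c0 • force (y0 - y1) + c2 • force (y2 - y1) = 0) : False := by
  have n0 := three_aux h01 h02 hc1 hs hd e0
  have n1 := three_aux (c0 := c1) (c1 := c0) (c2 := c2) h01.symm h12 hc0 (by linarith)
    (by rw [← hd]; abel) e1
  -- y2 - y0 = λ (y1 - y0) with |λ| = 1
  have hu : c1 • (y1 - y0) + c2 • (y2 - y0) = 0 := by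
    have : c1 • (y1 - y0) + c2 • (y2 - y0) =
        (c0 • y0 + c1 • y1 + c2 • y2) - (c0 + c1 + c2) • y0 := by
      simp only [smul_sub, add_smul]
      abel
    rw [this, hd, hs, zero_smul, sub_zero]
  have h1 : y2 - y0 = (-(c1 / c2)) • (y1 - y0) := by
    have h2 : c2 • (y2 - y0) = -(c1 • (y1 - y0)) := by
      rw [eq_neg_iff_add_eq_zero, add_comm]; exact hu
    have h3 : y2 - y0 = c2⁻¹ • (c2 • (y2 - y0)) := by
      rw [smul_smul, inv_mul_cancel₀ hc2, one_smul]
    rw [h3, h2, smul_neg, smul_smul, neg_smul, div_eq_inv_mul]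
  set l := -(c1 / c2) with hl
  have hpos : 0 < ‖y1 - y0‖ := norm_pos_iff.2 (sub_ne_zero.2 h01.symm)
  have h4 : |l| = 1 := by
    have : ‖y2 - y0‖ = |l| * ‖y1 - y0‖ := by rw [h1, norm_smul, Real.norm_eq_abs]
    rw [← n0] at this
    have h5 : (|l| - 1) * ‖y1 - y0‖ = 0 := by linarith
    have := (mul_eq_zero.1 h5).resolve_right hpos.ne'
    linarith
  rcases abs_eq (zero_le_one' ℝ) |>.1 h4 with h5 | h5
  · rw [h5, one_smul] at h1
    exact h12 (by
      have := sub_left_injective h1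
      exact this.symm)
  · rw [h5] at h1
    have h6 : y2 - y1 = (-2 : ℝ) • (y1 - y0) := by
      have : y2 - y1 = (y2 - y0) - (y1 - y0) := by abel
      rw [this, h1]
      module
    rw [h6, norm_smul, norm_sub_rev y0 y1] at n1
    norm_num at n1
    linarith

/-- Four charges: at a point where two of the difference vectors are independent, all three
distances agree. -/
lemma four_aux {y0 y1 y2 y3 : E} {c0 c1 c2 c3 : ℝ} (h01 : y0 ≠ y1) (h02 : y0 ≠ y2)
    (h03 : y0 ≠ y3) (hc1 : c1 ≠ 0) (hc2 : c2 ≠ 0) (hs : c0 + c1 + c2 + c3 = 0)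
    (hd : c0 • y0 + c1 • y1 + c2 • y2 + c3 • y3 = 0)
    (e0 : c1 • force (y1 - y0) + c2 • force (y2 - y0) + c3 • force (y3 - y0) = 0)
    (hind : ∀ a b : ℝ, a • (y1 - y0) + b • (y2 - y0) = 0 → a = 0 ∧ b = 0) :
    ‖y1 - y0‖ = ‖y3 - y0‖ ∧ ‖y2 - y0‖ = ‖y3 - y0‖ := by
  have hu : c1 • (y1 - y0) + c2 • (y2 - y0) + c3 • (y3 - y0) = 0 := by
    have : c1 • (y1 - y0) + c2 • (y2 - y0) + c3 • (y3 - y0) =
        (c0 • y0 + c1 • y1 + c2 • y2 + c3 • y3) - (c0 + c1 + c2 + c3) • y0 := by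
      simp only [smul_sub, add_smul]
      abel
    rw [this, hd, hs, zero_smul, sub_zero]
  set r1 := (‖y1 - y0‖ ^ 3)⁻¹
  set r2 := (‖y2 - y0‖ ^ 3)⁻¹
  set r3 := (‖y3 - y0‖ ^ 3)⁻¹
  have h1 : (c1 * (r1 - r3)) • (y1 - y0) + (c2 * (r2 - r3)) • (y2 - y0) = 0 := by
    have h2 : c1 • (r1 • (y1 - y0)) + c2 • (r2 • (y2 - y0)) + c3 • (r3 • (y3 - y0)) = 0 := e0
    have h3 : (c1 * (r1 - r3)) • (y1 - y0) + (c2 * (r2 - r3)) • (y2 - y0) =
        (c1 • (r1 • (y1 - y0)) + c2 • (r2 • (y2 - y0)) + c3 • (r3 • (y3 - y0))) -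
        r3 • (c1 • (y1 - y0) + c2 • (y2 - y0) + c3 • (y3 - y0)) := by
      module
    rw [h3, h2, hu, smul_zero, sub_zero]
  obtain ⟨h4, h5⟩ := hind _ _ h1
  have h6 := sub_eq_zero.1 ((mul_eq_zero.1 h4).resolve_left hc1)
  have h7 := sub_eq_zero.1 ((mul_eq_zero.1 h5).resolve_left hc2)
  have p1 : 0 < ‖y1 - y0‖ := norm_pos_iff.2 (sub_ne_zero.2 h01.symm)
  have p2 : 0 < ‖y2 - y0‖ := norm_pos_iff.2 (sub_ne_zero.2 h02.symm)
  have p3 : 0 < ‖y3 - y0‖ := norm_pos_iff.2 (sub_ne_zero.2 h03.symm)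
  exact ⟨inv_pow_three_inj p1 p3 h6, inv_pow_three_inj p2 p3 h7⟩

lemma force_ne_zero {v : E} (hv : v ≠ 0) : force v ≠ 0 := by
  rw [force]
  apply smul_ne_zero _ hv
  have : 0 < ‖v‖ := norm_pos_iff.2 hv
  positivity

lemma force_smul_phi (s : ℝ) (u : E) : force (s • u) = phi s • force u := by
  rw [force_smul, phi]

lemma inner_of_equal_norms {u v : E} {d : ℝ} (hu : ‖u‖ = d) (hv : ‖v‖ = d) (huv : ‖u - v‖ = d) :
    inner ℝ u v = d ^ 2 / 2 := by
  have h := norm_sub_sq_real u v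
  rw [hu, hv, huv] at h
  linarith

theorem no_equilibrium_four {y0 y1 y2 y3 : E} {c0 c1 c2 c3 : ℝ} (h01 : y0 ≠ y1) (h02 : y0 ≠ y2)
    (h03 : y0 ≠ y3) (h12 : y1 ≠ y2) (h13 : y1 ≠ y3) (h23 : y2 ≠ y3)
    (hc0 : c0 ≠ 0) (hc1 : c1 ≠ 0) (hc2 : c2 ≠ 0) (hc3 : c3 ≠ 0) (hs : c0 + c1 + c2 + c3 = 0)
    (hd : c0 • y0 + c1 • y1 + c2 • y2 + c3 • y3 = 0)
    (e0 : c1 • force (y1 - y0) + c2 • force (y2 - y0) + c3 • force (y3 - y0) = 0)
    (e1 : c0 • force (y0 - y1) + c2 • force (y2 - y1) + c3 • force (y3 - y1) = 0)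
    (e2 : c0 • force (y0 - y2) + c1 • force (y1 - y2) + c3 • force (y3 - y2) = 0) : False := by
  have hu0 : y1 - y0 ≠ 0 := sub_ne_zero.2 h01.symm
  have hu : c1 • (y1 - y0) + c2 • (y2 - y0) + c3 • (y3 - y0) = 0 := by
    have : c1 • (y1 - y0) + c2 • (y2 - y0) + c3 • (y3 - y0) =
        (c0 • y0 + c1 • y1 + c2 • y2 + c3 • y3) - (c0 + c1 + c2 + c3) • y0 := by
      simp only [smul_sub, add_smul]
      abel
    rw [this, hd, hs, zero_smul, sub_zero]
  rcases collinear_or_indep (y1 - y0) (y2 - y0) hu0 with ⟨l, hl⟩ | hind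
  · -- collinear case
    obtain ⟨m, hm⟩ : ∃ m : ℝ, y3 - y0 = m • (y1 - y0) := by
      refine ⟨-(c3⁻¹ * (c1 + c2 * l)), ?_⟩
      have h1 : c3 • (y3 - y0) = -((c1 + c2 * l) • (y1 - y0)) := by
        rw [hl] at hu
        rw [eq_neg_iff_add_eq_zero, ← hu]
        module
      have h3 : y3 - y0 = c3⁻¹ • (c3 • (y3 - y0)) := by
        rw [smul_smul, inv_mul_cancel₀ hc3, one_smul]
      rw [h3, h1]
      module
    have hF := force_ne_zero hu0
    obtain ⟨u, hudef⟩ : ∃ u, u = y1 - y0 := ⟨_, rfl⟩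
    rw [← hudef] at hF hl hm
    have d01 : y1 - y0 = ((1 : ℝ) - 0) • u := by rw [sub_zero, one_smul, hudef]
    have d02 : y2 - y0 = (l - 0) • u := by rw [sub_zero, hl]
    have d03 : y3 - y0 = (m - 0) • u := by rw [sub_zero, hm]
    have d10 : y0 - y1 = ((0 : ℝ) - 1) • u := by
      have : y0 - y1 = -(y1 - y0) := by abel
      rw [this, d01]; module
    have d12 : y2 - y1 = (l - 1) • u := by
      have : y2 - y1 = (y2 - y0) - (y1 - y0) := by abel
      rw [this, d01, d02]; module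
    have d13 : y3 - y1 = (m - 1) • u := by
      have : y3 - y1 = (y3 - y0) - (y1 - y0) := by abel
      rw [this, d01, d03]; module
    have d20 : y0 - y2 = (0 - l) • u := by
      have : y0 - y2 = -(y2 - y0) := by abel
      rw [this, d02]; module
    have d21 : y1 - y2 = (1 - l) • u := by
      have : y1 - y2 = (y1 - y0) - (y2 - y0) := by abel
      rw [this, d01, d02]; module
    have d23 : y3 - y2 = (m - l) • u := by
      have : y3 - y2 = (y3 - y0) - (y2 - y0) := by abel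
      rw [this, d02, d03]; module
    have i02 : (0 : ℝ) ≠ l := by
      rintro rfl
      apply h02
      rw [sub_zero, zero_smul, sub_eq_zero] at d02
      exact d02.symm
    have i03 : (0 : ℝ) ≠ m := by
      rintro rfl
      apply h03
      rw [sub_zero, zero_smul, sub_eq_zero] at d03
      exact d03.symm
    have i12 : (1 : ℝ) ≠ l := by
      rintro rfl
      apply h12
      rw [sub_self, zero_smul, sub_eq_zero] at d12
      exact d12.symm
    have i13 : (1 : ℝ) ≠ m := by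
      rintro rfl
      apply h13
      rw [sub_self, zero_smul, sub_eq_zero] at d13
      exact d13.symm
    have i23 : l ≠ m := by
      rintro rfl
      apply h23
      rw [sub_self, zero_smul, sub_eq_zero] at d23
      exact d23.symm
    rw [d01, d02, d03, force_smul_phi, force_smul_phi, force_smul_phi, smul_smul, smul_smul,
      smul_smul, ← add_smul, ← add_smul] at e0
    rw [d10, d12, d13, force_smul_phi, force_smul_phi, force_smul_phi, smul_smul, smul_smul,
      smul_smul, ← add_smul, ← add_smul] at e1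
    rw [d20, d21, d23, force_smul_phi, force_smul_phi, force_smul_phi, smul_smul, smul_smul,
      smul_smul, ← add_smul, ← add_smul] at e2
    exact no_equilibrium_line (s0 := 0) (s1 := 1) (s2 := l) (s3 := m) (c0 := c0) (c1 := c1)
      (c2 := c2) (c3 := c3) (by norm_num) i02 i03 i12 i13 i23 hc3
      ((smul_eq_zero.1 e0).resolve_right hF) ((smul_eq_zero.1 e1).resolve_right hF)
      ((smul_eq_zero.1 e2).resolve_right hF)
  · -- independent case
    obtain ⟨a1, a2⟩ := four_aux h01 h02 h03 hc1 hc2 hs hd e0 hind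
    obtain ⟨b1, b2⟩ := four_aux (y0 := y1) (y1 := y0) (y2 := y2) (y3 := y3) (c0 := c1) (c1 := c0)
      (c2 := c2) (c3 := c3) h01.symm h12 h13 hc0 hc2 (by linarith) (by rw [← hd]; abel) e1 (by
        intro a b hab
        have h1 : (-a - b) • (y1 - y0) + b • (y2 - y0) = 0 := by
          rw [← hab]; module
        obtain ⟨h2, h3⟩ := hind _ _ h1
        exact ⟨by linarith, h3⟩)
    obtain ⟨g1, g2⟩ := four_aux (y0 := y2) (y1 := y0) (y2 := y1) (y3 := y3) (c0 := c2) (c1 := c0)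
      (c2 := c1) (c3 := c3) h02.symm h12.symm h23 hc0 hc1 (by linarith) (by rw [← hd]; abel) e2 (by
        intro a b hab
        have h1 : b • (y1 - y0) + (-a - b) • (y2 - y0) = 0 := by
          rw [← hab]; module
        obtain ⟨h2, h3⟩ := hind _ _ h1
        exact ⟨by linarith, h2⟩)
    obtain ⟨d, hd1⟩ : ∃ d, d = ‖y1 - y0‖ := ⟨_, rfl⟩
    have n1 : ‖y1 - y0‖ = d := hd1.symm
    have n3 : ‖y3 - y0‖ = d := by rw [← a1, n1]
    have n2 : ‖y2 - y0‖ = d := by rw [a2, n3]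
    have n31 : ‖y3 - y1‖ = d := by rw [← b1, norm_sub_rev, n1]
    have n21 : ‖y2 - y1‖ = d := by rw [b2, n31]
    have n32 : ‖y3 - y2‖ = d := by rw [← g1, norm_sub_rev, n2]
    have i12 : inner ℝ (y1 - y0) (y2 - y0) = d ^ 2 / 2 := by
      apply inner_of_equal_norms n1 n2
      rw [sub_sub_sub_cancel_right, norm_sub_rev, n21]
    have i13 : inner ℝ (y1 - y0) (y3 - y0) = d ^ 2 / 2 := by
      apply inner_of_equal_norms n1 n3
      rw [sub_sub_sub_cancel_right, norm_sub_rev, n31]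
    have i23 : inner ℝ (y2 - y0) (y3 - y0) = d ^ 2 / 2 := by
      apply inner_of_equal_norms n2 n3
      rw [sub_sub_sub_cancel_right, norm_sub_rev, n32]
    have i11 : inner ℝ (y1 - y0) (y1 - y0) = d ^ 2 := by rw [real_inner_self_eq_norm_sq, n1]
    have i22 : inner ℝ (y2 - y0) (y2 - y0) = d ^ 2 := by rw [real_inner_self_eq_norm_sq, n2]
    have i33 : inner ℝ (y3 - y0) (y3 - y0) = d ^ 2 := by rw [real_inner_self_eq_norm_sq, n3]
    have q1 : inner ℝ (y1 - y0) (c1 • (y1 - y0) + c2 • (y2 - y0) + c3 • (y3 - y0)) = 0 := by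
      rw [hu, inner_zero_right]
    have q2 : inner ℝ (y2 - y0) (c1 • (y1 - y0) + c2 • (y2 - y0) + c3 • (y3 - y0)) = 0 := by
      rw [hu, inner_zero_right]
    have q3 : inner ℝ (y3 - y0) (c1 • (y1 - y0) + c2 • (y2 - y0) + c3 • (y3 - y0)) = 0 := by
      rw [hu, inner_zero_right]
    rw [inner_add_right, inner_add_right, inner_smul_right, inner_smul_right, inner_smul_right,
      i11, i12, i13] at q1
    have i21 : inner ℝ (y2 - y0) (y1 - y0) = d ^ 2 / 2 := by rw [real_inner_comm, i12]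
    have i31 : inner ℝ (y3 - y0) (y1 - y0) = d ^ 2 / 2 := by rw [real_inner_comm, i13]
    have i32 : inner ℝ (y3 - y0) (y2 - y0) = d ^ 2 / 2 := by rw [real_inner_comm, i23]
    rw [inner_add_right, inner_add_right, inner_smul_right, inner_smul_right, inner_smul_right,
      i22, i21, i23] at q2
    rw [inner_add_right, inner_add_right, inner_smul_right, inner_smul_right, inner_smul_right,
      i33, i31, i32] at q3
    have hdpos : 0 < d := by rw [← n1]; exact norm_pos_iff.2 hu0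
    have hd2 : 0 < d ^ 2 := by positivity
    have hz : c1 * d ^ 2 = 0 := by linarith
    exact hc1 ((mul_eq_zero.1 hz).resolve_right hd2.ne')

end Pool.Agent.Lib.MP_c28bf6_an
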