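import Pool.Agent.Lib.MP_c28bf6_an.Dynamics

/-!
# Differences of indicator functions of translated triples are not in `W`
-/

open Finset

namespace Pool.Agent.Lib.MP_c28bf6_an

variable {E : Type*} [NormedAddCommGroup E] [InnerProductSpace ℝ E]

/-- Symmetric form of `no_equilibrium_six`. -/
theorem no_equilibrium_six_sym {a1 a2 a3 b1 b2 b3 : E} (ha1 : ‖a1‖ ≤ 1) (ha2 : ‖a2‖ ≤ 1)
    (ha3 : ‖a3‖ ≤ 1) (hb1 : ‖b1‖ ≤ 1) (hb2 : ‖b2‖ ≤ 1) (hb3 : ‖b3‖ ≤ 1)
    (hamax : ‖a1‖ = 1 ∨ ‖a2‖ = 1 ∨ ‖a3‖ = 1) (hbmax : ‖b1‖ = 1 ∨ ‖b2‖ = 1 ∨ ‖b3‖ = 1)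
    (hA : a1 + a2 + a3 = 0) (hB : b1 + b2 + b3 = 0)
    (n11 : a1 ≠ b1) (n12 : a1 ≠ b2) (n13 : a1 ≠ b3)
    (n21 : a2 ≠ b1) (n22 : a2 ≠ b2) (n23 : a2 ≠ b3)
    (n31 : a3 ≠ b1) (n32 : a3 ≠ b2) (n33 : a3 ≠ b3)
    (e : ∀ y ∈ ({a1, a2, a3, b1, b2, b3} : Set E),
      force (a1 - y) + force (a2 - y) + force (a3 - y) =
      force (b1 - y) + force (b2 - y) + force (b3 - y)) : False := by
  have ea1 := e a1 (by simp)
  have ea2 := e a2 (by simp)
  have ea3 := e a3 (by simp)
  have eb1 := e b1 (by simp)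
  have eb2 := e b2 (by simp)
  have eb3 := e b3 (by simp)
  simp only [sub_self, force_zero, zero_add, add_zero] at ea1 ea2 ea3 eb1 eb2 eb3
  have A2 : a2 + a1 + a3 = 0 := by rw [← hA]; abel
  have A3 : a3 + a1 + a2 = 0 := by rw [← hA]; abel
  have B2 : b2 + b1 + b3 = 0 := by rw [← hB]; abel
  have B3 : b3 + b1 + b2 = 0 := by rw [← hB]; abel
  rcases hamax with h | h | h
  · rcases hbmax with k | k | k
    · exact no_equilibrium_six h ha2 ha3 k hb2 hb3 hA hB n11 n12 n13 n21 n31 ea1 eb1.symm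
    · exact no_equilibrium_six h ha2 ha3 k hb1 hb3 hA B2 n12 n11 n13 n22 n32
        (by rw [ea1]; abel) (by rw [← eb2])
    · exact no_equilibrium_six h ha2 ha3 k hb1 hb2 hA B3 n13 n11 n12 n23 n33
        (by rw [ea1]; abel) (by rw [← eb3])
  · rcases hbmax with k | k | k
    · exact no_equilibrium_six h ha1 ha3 k hb2 hb3 A2 hB n21 n22 n23 n11 n31
        (by rw [ea2]) (by rw [← eb1]; abel)
    · exact no_equilibrium_six h ha1 ha3 k hb1 hb3 A2 B2 n22 n21 n23 n12 n32
        (by rw [ea2]; abel) (by rw [← eb2]; abel)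
    · exact no_equilibrium_six h ha1 ha3 k hb1 hb2 A2 B3 n23 n21 n22 n13 n33
        (by rw [ea2]; abel) (by rw [← eb3]; abel)
  · rcases hbmax with k | k | k
    · exact no_equilibrium_six h ha1 ha2 k hb2 hb3 A3 hB n31 n32 n33 n11 n21
        (by rw [ea3]) (by rw [← eb1]; abel)
    · exact no_equilibrium_six h ha1 ha2 k hb1 hb3 A3 B2 n32 n31 n33 n12 n22
        (by rw [ea3]; abel) (by rw [← eb2]; abel)
    · exact no_equilibrium_six h ha1 ha2 k hb1 hb2 A3 B3 n33 n31 n32 n13 n23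
        (by rw [ea3]; abel) (by rw [← eb3]; abel)

namespace Core

variable {n : ℕ} [NeZero n] {μ : ZMod n → ℝ} {X : ZMod n → ℝ → E} {τ : ℝ}

lemma per_nat (h : Core n μ X τ) (j : ZMod n) (t : ℝ) (k : ℕ) :
    X j (t + k * (n * τ)) = X j t := by
  induction k with
  | zero => simp
  | succ k ih =>
    have : t + ((k + 1 : ℕ) : ℝ) * (n * τ) = (t + k * (n * τ)) + n * τ := by push_cast; ring
    rw [this, h.per, ih]

/-- outer radius of a triple -/
noncomputable def rad (X : ZMod n → ℝ → E) (a b c : ZMod n) (t : ℝ) : ℝ :=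
  max (max ‖X a t - (1 / 3 : ℝ) • (X a t + X b t + X c t)‖
    ‖X b t - (1 / 3 : ℝ) • (X a t + X b t + X c t)‖)
    ‖X c t - (1 / 3 : ℝ) • (X a t + X b t + X c t)‖

theorem no_triple (h : Core n μ X τ) {a b c s : ZMod n} (hab : a ≠ b)
    (n11 : a ≠ a + s) (n12 : a ≠ b + s) (n13 : a ≠ c + s)
    (n21 : b ≠ a + s) (n22 : b ≠ b + s) (n23 : b ≠ c + s)
    (n31 : c ≠ a + s) (n32 : c ≠ b + s) (n33 : c ≠ c + s)
    (hw : (Pi.single a 1 + Pi.single b 1 + Pi.single c 1 - Pi.single (a + s) 1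
      - Pi.single (b + s) 1 - Pi.single (c + s) 1 : ZMod n → ℝ) ∈ W n μ) : False := by
  classical
  have hdip : ∀ t, X a t + X b t + X c t = X (a + s) t + X (b + s) t + X (c + s) t := by
    intro t
    have h1 := h.dipole_W hw t
    simp only [Pi.add_apply, Pi.sub_apply, add_smul, sub_smul, Finset.sum_add_distrib,
      Finset.sum_sub_distrib, Pi.single_apply, ite_smul, one_smul, zero_smul,
      Finset.sum_ite_eq', Finset.mem_univ, if_true] at h1
    rw [← sub_eq_zero, ← h1]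
    abel
  have heq : ∀ t i, force (X a t - X i t) + force (X b t - X i t) + force (X c t - X i t) =
      force (X (a + s) t - X i t) + force (X (b + s) t - X i t) + force (X (c + s) t - X i t) := by
    intro t i
    have h1 := h.equil_W hw t i
    simp only [Pi.add_apply, Pi.sub_apply, add_smul, sub_smul, Finset.sum_add_distrib,
      Finset.sum_sub_distrib, Pi.single_apply, ite_smul, one_smul, zero_smul,
      Finset.sum_ite_eq', Finset.mem_univ, if_true] at h1
    rw [← sub_eq_zero, ← h1]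
    abel
  have hcont : ∀ j, Continuous (X j) := fun j => (h.diff j).continuous
  have hRcont : Continuous (rad X a b c) := by
    unfold rad
    have h1 : Continuous (fun t => (1 / 3 : ℝ) • (X a t + X b t + X c t)) :=
      (((hcont a).add (hcont b)).add (hcont c)).const_smul _
    exact ((((hcont a).sub h1).norm).max (((hcont b).sub h1).norm)).max (((hcont c).sub h1).norm)
  set σ : ℝ := (s.val : ℝ) * τ with hσ
  have hshift : ∀ t, rad X a b c (t + σ) =
      max (max ‖X (a + s) t - (1 / 3 : ℝ) • (X a t + X b t + X c t)‖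
        ‖X (b + s) t - (1 / 3 : ℝ) • (X a t + X b t + X c t)‖)
        ‖X (c + s) t - (1 / 3 : ℝ) • (X a t + X b t + X c t)‖ := by
    intro t
    rw [rad, ← h.shift a s t, ← h.shift b s t, ← h.shift c s t, ← hdip t]
  -- there is a time with equal radii
  obtain ⟨t, ht⟩ : ∃ t, rad X a b c t = rad X a b c (t + σ) := by
    have hD : Continuous (fun t => rad X a b c t - rad X a b c (t + σ)) :=
      hRcont.sub (hRcont.comp (continuous_id.add continuous_const))
    have hsum : ∀ t, ∑ k ∈ Finset.range n, (rad X a b c (t + k * σ) -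
        rad X a b c (t + k * σ + σ)) = 0 := by
      intro t
      have h1 : ∀ k : ℕ, rad X a b c (t + k * σ + σ) = rad X a b c (t + ((k + 1 : ℕ) : ℝ) * σ) := by
        intro k
        congr 1
        push_cast
        ring
      simp only [h1]
      rw [Finset.sum_range_sub']
      have h2 : rad X a b c (t + (n : ℝ) * σ) = rad X a b c t := by
        have h3 : t + (n : ℝ) * σ = t + (s.val : ℝ) * (n * τ) := by rw [hσ]; ring
        rw [h3, rad, rad, h.per_nat, h.per_nat, h.per_nat]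
      rw [h2]
      simp
    have hn : (Finset.range n).Nonempty := by
      rw [Finset.nonempty_range_iff]
      exact NeZero.ne n
    have hle : ∃ t, rad X a b c t - rad X a b c (t + σ) ≤ 0 := by
      by_contra hcon
      push Not at hcon
      have := Finset.sum_pos (fun k (_ : k ∈ Finset.range n) => hcon (0 + k * σ)) hn
      rw [hsum 0] at this
      exact lt_irrefl _ this
    have hge : ∃ t, 0 ≤ rad X a b c t - rad X a b c (t + σ) := by
      by_contra hcon
      push Not at hcon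
      have := Finset.sum_neg (fun k (_ : k ∈ Finset.range n) => hcon (0 + k * σ)) hn
      rw [hsum 0] at this
      exact lt_irrefl _ this
    obtain ⟨t, ht⟩ := mem_range_of_exists_le_of_exists_ge hD hle hge
    exact ⟨t, sub_eq_zero.1 ht⟩
  rw [hshift] at ht
  obtain ⟨C, hC⟩ : ∃ C : E, C = (1 / 3 : ℝ) • (X a t + X b t + X c t) := ⟨_, rfl⟩
  obtain ⟨ρ, hρ⟩ : ∃ ρ : ℝ, ρ = rad X a b c t := ⟨_, rfl⟩
  have hρ' : ρ = max (max ‖X (a + s) t - C‖ ‖X (b + s) t - C‖) ‖X (c + s) t - C‖ := by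
    rw [hρ, hC]; exact ht
  have hρ1 : ρ = max (max ‖X a t - C‖ ‖X b t - C‖) ‖X c t - C‖ := by
    rw [hρ, hC]; rfl
  have hρpos : 0 < ρ := by
    by_contra hcon
    push Not at hcon
    have ha : ‖X a t - C‖ ≤ 0 := le_trans (le_trans (le_max_left _ _) (le_max_left _ _))
      (hρ1 ▸ hcon)
    have hb : ‖X b t - C‖ ≤ 0 := le_trans (le_trans (le_max_right _ _) (le_max_left _ _))
      (hρ1 ▸ hcon)
    have ha' := sub_eq_zero.1 (norm_le_zero_iff.1 ha)
    have hb' := sub_eq_zero.1 (norm_le_zero_iff.1 hb)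
    exact h.nocol t a b hab (ha'.trans hb'.symm)
  have hnorm : ∀ v : E, ‖ρ⁻¹ • v‖ = ‖v‖ / ρ := by
    intro v
    rw [norm_smul, Real.norm_eq_abs, abs_of_pos (by positivity), div_eq_inv_mul]
  have hle1 : ∀ v : E, ‖v‖ ≤ ρ → ‖ρ⁻¹ • v‖ ≤ 1 := by
    intro v hv
    rw [hnorm, div_le_one hρpos]
    exact hv
  have heq1 : ∀ v : E, ‖v‖ = ρ → ‖ρ⁻¹ • v‖ = 1 := by
    intro v hv
    rw [hnorm, hv, div_self hρpos.ne']
  have hmax : ∀ x y z : ℝ, ρ = max (max x y) z → x = ρ ∨ y = ρ ∨ z = ρ := by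
    intro x y z hxyz
    rcases max_choice (max x y) z with h1 | h1
    · rcases max_choice x y with h2 | h2
      · left; rw [hxyz, h1, h2]
      · right; left; rw [hxyz, h1, h2]
    · right; right; rw [hxyz, h1]
  have hmax_le : ∀ x y z : ℝ, ρ = max (max x y) z → x ≤ ρ ∧ y ≤ ρ ∧ z ≤ ρ := by
    intro x y z hxyz
    rw [hxyz]
    exact ⟨le_trans (le_max_left _ _) (le_max_left _ _),
      le_trans (le_max_right _ _) (le_max_left _ _), le_max_right _ _⟩
  obtain ⟨la, lb, lc⟩ := hmax_le _ _ _ hρ1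
  obtain ⟨la', lb', lc'⟩ := hmax_le _ _ _ hρ'
  have hinj : ∀ i j : ZMod n, i ≠ j → ρ⁻¹ • (X i t - C) ≠ ρ⁻¹ • (X j t - C) := by
    intro i j hij hcon
    have h1 := smul_right_injective E (inv_ne_zero hρpos.ne') hcon
    exact h.nocol t i j hij (sub_left_injective h1)
  have hsumA : ρ⁻¹ • (X a t - C) + ρ⁻¹ • (X b t - C) + ρ⁻¹ • (X c t - C) = 0 := by
    rw [← smul_add, ← smul_add, hC]
    have : X a t - (1 / 3 : ℝ) • (X a t + X b t + X c t) +
        (X b t - (1 / 3 : ℝ) • (X a t + X b t + X c t)) +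
        (X c t - (1 / 3 : ℝ) • (X a t + X b t + X c t)) = 0 := by module
    rw [this, smul_zero]
  have hsumB : ρ⁻¹ • (X (a + s) t - C) + ρ⁻¹ • (X (b + s) t - C) +
      ρ⁻¹ • (X (c + s) t - C) = 0 := by
    rw [← smul_add, ← smul_add, hC, hdip t]
    have : X (a + s) t - (1 / 3 : ℝ) • (X (a + s) t + X (b + s) t + X (c + s) t) +
        (X (b + s) t - (1 / 3 : ℝ) • (X (a + s) t + X (b + s) t + X (c + s) t)) +
        (X (c + s) t - (1 / 3 : ℝ) • (X (a + s) t + X (b + s) t + X (c + s) t)) = 0 := by module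
    rw [this, smul_zero]
  have hforce : ∀ i j : ZMod n, force (ρ⁻¹ • (X i t - C) - ρ⁻¹ • (X j t - C)) =
      ((|ρ⁻¹| ^ 3)⁻¹ * ρ⁻¹) • force (X i t - X j t) := by
    intro i j
    rw [← smul_sub, force_smul, sub_sub_sub_cancel_right]
  have heq' : ∀ j : ZMod n,
      force (ρ⁻¹ • (X a t - C) - ρ⁻¹ • (X j t - C)) +
        force (ρ⁻¹ • (X b t - C) - ρ⁻¹ • (X j t - C)) +
        force (ρ⁻¹ • (X c t - C) - ρ⁻¹ • (X j t - C)) =
      force (ρ⁻¹ • (X (a + s) t - C) - ρ⁻¹ • (X j t - C)) +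
        force (ρ⁻¹ • (X (b + s) t - C) - ρ⁻¹ • (X j t - C)) +
        force (ρ⁻¹ • (X (c + s) t - C) - ρ⁻¹ • (X j t - C)) := by
    intro j
    simp only [hforce]
    rw [← smul_add, ← smul_add, ← smul_add, ← smul_add, heq t j]
  apply no_equilibrium_six_sym (hle1 _ la) (hle1 _ lb) (hle1 _ lc) (hle1 _ la') (hle1 _ lb')
    (hle1 _ lc') _ _ hsumA hsumB (hinj _ _ n11) (hinj _ _ n12) (hinj _ _ n13) (hinj _ _ n21)
    (hinj _ _ n22) (hinj _ _ n23) (hinj _ _ n31) (hinj _ _ n32) (hinj _ _ n33)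
  · intro y hy
    simp only [Set.mem_insert_iff, Set.mem_singleton_iff] at hy
    rcases hy with rfl | rfl | rfl | rfl | rfl | rfl
    all_goals exact heq' _
  · rcases hmax _ _ _ hρ1 with h1 | h1 | h1
    · left; exact heq1 _ h1
    · right; left; exact heq1 _ h1
    · right; right; exact heq1 _ h1
  · rcases hmax _ _ _ hρ' with h1 | h1 | h1
    · left; exact heq1 _ h1
    · right; left; exact heq1 _ h1
    · right; right; exact heq1 _ h1

end Core

end Pool.Agent.Lib.MP_c28bf6_an
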